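import Mathlib

/-!
# Matroid matching: the linear algebra of the bound
-/

set_option autoImplicit false

open Finset Module

namespace Pool.Agent.Q131.RM

variable {E W : Type} [DecidableEq E] [Fintype E] [AddCommGroup W] [Module ℝ W]

/-- The rank of the vectors `v e`, `e ∈ S`. -/
noncomputable def rk (v : E → W) (S : Finset E) : ℕ :=
  finrank ℝ (Submodule.span ℝ (v '' (S : Set E)))

/-- The value of the upper bound for the set `Z` and the partition `π`. -/
noncomputable def bound (v : E → W) {H : Finset (Finset E)} (Z : Finset E)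
    (π : Finpartition H) : ℕ :=
  rk v Z + ∑ B ∈ π.parts, (rk v (Z ∪ B.biUnion id) - rk v Z) / 2

/-- The relations between the vectors of `B` modulo the span of `Z`. -/
def K (v : E → W) (Z B : Finset E) : Submodule ℝ (E → ℝ) where
  carrier := {ω | (∀ e, e ∉ B → ω e = 0) ∧
    ∑ e ∈ B, ω e • v e ∈ Submodule.span ℝ (v '' (Z : Set E))}
  add_mem' := by
    rintro ω τ ⟨h1, h2⟩ ⟨h3, h4⟩
    refine ⟨fun e he => by simp [h1 e he, h3 e he], ?_⟩
    have : ∑ e ∈ B, (ω + τ) e • v e = ∑ e ∈ B, ω e • v e + ∑ e ∈ B, τ e • v e := by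
      rw [← Finset.sum_add_distrib]
      exact Finset.sum_congr rfl fun e _ => by rw [Pi.add_apply, add_smul]
    rw [this]
    exact Submodule.add_mem _ h2 h4
  zero_mem' := by
    refine ⟨fun e _ => rfl, ?_⟩
    simp
  smul_mem' := by
    rintro c ω ⟨h1, h2⟩
    refine ⟨fun e he => by simp [h1 e he], ?_⟩
    have : ∑ e ∈ B, (c • ω) e • v e = c • ∑ e ∈ B, ω e • v e := by
      rw [Finset.smul_sum]
      exact Finset.sum_congr rfl fun e _ => by rw [Pi.smul_apply, smul_eq_mul, mul_smul]
    rw [this]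
    exact Submodule.smul_mem _ _ h2

theorem mem_K {v : E → W} {Z B : Finset E} {ω : E → ℝ} :
    ω ∈ K v Z B ↔ (∀ e, e ∉ B → ω e = 0) ∧
      ∑ e ∈ B, ω e • v e ∈ Submodule.span ℝ (v '' (Z : Set E)) := Iff.rfl

instance finSpan (v : E → W) (Z : Finset E) :
    FiniteDimensional ℝ (Submodule.span ℝ (v '' (Z : Set E))) :=
  FiniteDimensional.span_of_finite ℝ ((Finset.finite_toSet Z).image v)

/-- The combination map. -/
noncomputable def cmb (v : E → W) (Z B : Finset E) :
    ((B → ℝ) × Submodule.span ℝ (v '' (Z : Set E))) →ₗ[ℝ] W :=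
  (Fintype.linearCombination ℝ (fun e : B => v e)).coprod (Submodule.subtype _)

theorem cmb_apply (v : E → W) (Z B : Finset E) (c : B → ℝ)
    (w : Submodule.span ℝ (v '' (Z : Set E))) :
    cmb v Z B (c, w) = ∑ e : B, c e • v e + w := by
  simp [cmb, Fintype.linearCombination_apply]

theorem range_cmb (v : E → W) (Z B : Finset E) :
    LinearMap.range (cmb v Z B) = Submodule.span ℝ (v '' ((Z ∪ B : Finset E) : Set E)) := by
  rw [cmb, LinearMap.range_coprod, Fintype.range_linearCombination, Submodule.range_subtype,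
    Finset.coe_union, Set.image_union, Submodule.span_union, sup_comm]
  congr 2
  ext x
  simp

/-- The extension by zero on the kernel of the combination map. -/
noncomputable def ext0 (v : E → W) (Z B : Finset E) :
    LinearMap.ker (cmb v Z B) →ₗ[ℝ] (E → ℝ) where
  toFun x := fun e => if h : e ∈ B then x.1.1 ⟨e, h⟩ else 0
  map_add' x y := by
    ext e
    by_cases h : e ∈ B <;> simp [h]
  map_smul' c x := by
    ext e
    by_cases h : e ∈ B <;> simp [h]

theorem range_ext0 (v : E → W) (Z B : Finset E) : LinearMap.range (ext0 v Z B) = K v Z B := by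
  ext ω
  rw [LinearMap.mem_range, mem_K]
  constructor
  · rintro ⟨⟨⟨c, w⟩, hx⟩, rfl⟩
    rw [LinearMap.mem_ker, cmb_apply] at hx
    refine ⟨fun e he => by simp [ext0, he], ?_⟩
    have h1 : ∑ e ∈ B, (ext0 v Z B ⟨(c, w), by rwa [LinearMap.mem_ker, cmb_apply]⟩) e • v e =
        ∑ e : B, c e • v e := by
      rw [← Finset.sum_coe_sort B]
      refine Finset.sum_congr rfl fun e _ => ?_
      simp [ext0]
    rw [h1, eq_neg_of_add_eq_zero_left hx]
    exact Submodule.neg_mem _ w.2
  · rintro ⟨h1, h2⟩
    refine ⟨⟨(fun e => ω e, ⟨-∑ e ∈ B, ω e • v e, Submodule.neg_mem _ h2⟩), ?_⟩, ?_⟩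
    · rw [LinearMap.mem_ker, cmb_apply]
      simp only
      rw [Finset.sum_coe_sort B (fun e => ω e • v e)]
      simp
    · ext e
      by_cases h : e ∈ B
      · simp [ext0, h]
      · simp [ext0, h, h1 e h]

theorem ext0_injective (v : E → W) (Z B : Finset E) : Function.Injective (ext0 v Z B) := by
  rw [← LinearMap.ker_eq_bot, LinearMap.ker_eq_bot']
  rintro ⟨⟨c, w⟩, hx⟩ h
  rw [LinearMap.mem_ker, cmb_apply] at hx
  have hc : c = 0 := by
    ext ⟨e, he⟩
    have := congrFun h e
    simpa [ext0, he] using this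
  subst hc
  have hw : w = 0 := by
    apply Subtype.ext
    simpa using hx
  subst hw
  rfl

/-- Rank and number of relations. -/
theorem rk_union (v : E → W) (Z B : Finset E) :
    finrank ℝ (K v Z B) + rk v (Z ∪ B) = B.card + rk v Z := by
  have h1 := LinearMap.finrank_range_add_finrank_ker (cmb v Z B)
  rw [range_cmb, finrank_prod, finrank_fintype_fun_eq_card, Fintype.card_coe] at h1
  have h2 : finrank ℝ (K v Z B) = finrank ℝ (LinearMap.ker (cmb v Z B)) := by
    rw [← range_ext0]
    exact LinearMap.finrank_range_of_inj (ext0_injective v Z B)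
  rw [h2]
  unfold rk
  omega

theorem rk_mono {v : E → W} {S T : Finset E} (h : S ⊆ T) : rk v S ≤ rk v T :=
  Submodule.finrank_mono (Submodule.span_mono (Set.image_mono (Finset.coe_subset.2 h)))

theorem rk_le_card (v : E → W) (S : Finset E) : rk v S ≤ S.card := by
  have h := rk_union v ∅ S
  have h0 : rk v ∅ = 0 := by simp [rk]
  rw [h0, Finset.empty_union] at h
  omega

end Pool.Agent.Q131.RM
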