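import Pool.Agent.Q131.RM.Core

/-!
# Matroid matching: sums of relation spaces
-/

set_option autoImplicit false
set_option linter.unusedSectionVars false

open Finset Module

namespace Pool.Agent.Q131.RM

variable {E W : Type} [DecidableEq E] [Fintype E] [AddCommGroup W] [Module ℝ W]

section sums

variable {H : Finset (Finset E)} (π : Finpartition H)
  (hdisj : ∀ P ∈ H, ∀ Q ∈ H, P ≠ Q → Disjoint P Q)

include hdisj in
/-- different parts have disjoint unions -/
theorem disj_parts {B C : Finset (Finset E)} (hB : B ∈ π.parts) (hC : C ∈ π.parts) (h : B ≠ C) :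
    Disjoint (B.biUnion id) (C.biUnion id) := by
  rw [Finset.disjoint_left]
  intro e he he'
  rw [Finset.mem_biUnion] at he he'
  obtain ⟨P, hP, heP⟩ := he
  obtain ⟨Q, hQ, heQ⟩ := he'
  have hPQ : P ≠ Q := by
    rintro rfl
    exact Finset.disjoint_left.1 (π.disjoint hB hC h) hP hQ
  exact Finset.disjoint_left.1 (hdisj P (π.le hB hP) Q (π.le hC hQ) hPQ) heP heQ

theorem sub_part {B : Finset (Finset E)} (hB : B ∈ π.parts) : B.biUnion id ⊆ H.biUnion id :=
  Finset.biUnion_subset_biUnion_of_subset_left _ (π.le hB)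

theorem exists_part {e : E} (he : e ∈ H.biUnion id) : ∃ B ∈ π.parts, e ∈ B.biUnion id := by
  rw [Finset.mem_biUnion] at he
  obtain ⟨P, hP, heP⟩ := he
  obtain ⟨B, hB, hPB⟩ := π.exists_mem hP
  exact ⟨B, hB, Finset.mem_biUnion.2 ⟨P, hPB, heP⟩⟩

/-- The sum map. -/
noncomputable def sumMap (v : E → W) (Z : Finset E) :
    (∀ B : π.parts, K v Z ((B : Finset (Finset E)).biUnion id)) →ₗ[ℝ] (E → ℝ) :=
  ∑ B : π.parts, (Submodule.subtype _).comp (LinearMap.proj B)

theorem sumMap_apply (v : E → W) (Z : Finset E)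
    (f : ∀ B : π.parts, K v Z ((B : Finset (Finset E)).biUnion id)) (e : E) :
    sumMap π v Z f e = ∑ B : π.parts, (f B : E → ℝ) e := by
  simp [sumMap, LinearMap.sum_apply]

include hdisj in
theorem sumMap_eq (v : E → W) (Z : Finset E)
    (f : ∀ B : π.parts, K v Z ((B : Finset (Finset E)).biUnion id)) (B : π.parts) {e : E}
    (he : e ∈ (B : Finset (Finset E)).biUnion id) : sumMap π v Z f e = (f B : E → ℝ) e := by
  rw [sumMap_apply, Finset.sum_eq_single B]
  · intro C _ hCB
    apply (mem_K.1 (f C).2).1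
    intro heC
    exact Finset.disjoint_left.1 (disj_parts π hdisj C.2 B.2 (fun h => hCB (Subtype.ext h))) heC he
  · intro h; exact absurd (Finset.mem_univ _) h

include hdisj in
theorem sumMap_injective (v : E → W) (Z : Finset E) : Function.Injective (sumMap π v Z) := by
  rw [← LinearMap.ker_eq_bot, LinearMap.ker_eq_bot']
  intro f hf
  funext B
  apply Subtype.ext
  ext e
  by_cases he : e ∈ (B : Finset (Finset E)).biUnion id
  · rw [← sumMap_eq π hdisj v Z f B he, hf]; rfl
  · exact (mem_K.1 (f B).2).1 e he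

theorem K_mono {v : E → W} {Z B C : Finset E} (h : B ⊆ C) : K v Z B ≤ K v Z C := by
  rintro ω ⟨h1, h2⟩
  refine ⟨fun e he => h1 e fun h' => he (h h'), ?_⟩
  rw [← Finset.sum_subset h (f := fun e => ω e • v e)]
  · exact h2
  · intro e _ he; rw [h1 e he, zero_smul]

theorem sumMap_mem (v : E → W) (Z : Finset E)
    (f : ∀ B : π.parts, K v Z ((B : Finset (Finset E)).biUnion id)) :
    sumMap π v Z f ∈ K v Z (H.biUnion id) := by
  have h : sumMap π v Z f = ∑ B : π.parts, (f B : E → ℝ) := by
    ext e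
    rw [sumMap_apply, Finset.sum_apply]
  rw [h]
  exact Submodule.sum_mem _ fun B _ => K_mono (sub_part π B.2) (f B).2

include hdisj in
theorem sum_le (v : E → W) (Z : Finset E) :
    ∑ B ∈ π.parts, finrank ℝ (K v Z (B.biUnion id)) ≤ finrank ℝ (K v Z (H.biUnion id)) := by
  have h1 : Function.Injective ((sumMap π v Z).codRestrict _ (sumMap_mem π v Z)) := by
    intro f g hfg
    apply sumMap_injective π hdisj v Z
    have := congrArg Subtype.val hfg
    simpa using this
  have h2 := LinearMap.finrank_le_finrank_of_injective h1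
  rw [finrank_pi_fintype] at h2
  rw [← Finset.sum_coe_sort π.parts (fun B => finrank ℝ (K v Z (B.biUnion id)))]
  exact h2

include hdisj in
theorem restr (v : E → W) (Z : Finset E)
    (heq : ∑ B ∈ π.parts, finrank ℝ (K v Z (B.biUnion id)) = finrank ℝ (K v Z (H.biUnion id)))
    {ω : E → ℝ} (hω : ω ∈ K v Z (H.biUnion id)) {B : Finset (Finset E)} (hB : B ∈ π.parts) :
    ∃ τ ∈ K v Z (B.biUnion id), ∀ e ∈ B.biUnion id, ω e = τ e := by
  set L := (sumMap π v Z).codRestrict _ (sumMap_mem π v Z) with hL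
  have h1 : Function.Injective L := by
    intro f g hfg
    apply sumMap_injective π hdisj v Z
    have := congrArg Subtype.val hfg
    simpa [hL] using this
  have h2 : finrank ℝ (∀ B : π.parts, K v Z ((B : Finset (Finset E)).biUnion id)) =
      finrank ℝ (K v Z (H.biUnion id)) := by
    rw [finrank_pi_fintype, ← heq,
      ← Finset.sum_coe_sort π.parts (fun B => finrank ℝ (K v Z (B.biUnion id)))]
  have h3 := (LinearMap.injective_iff_surjective_of_finrank_eq_finrank h2).1 h1
  obtain ⟨f, hf⟩ := h3 ⟨ω, hω⟩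
  refine ⟨f ⟨B, hB⟩, (f ⟨B, hB⟩).2, fun e he => ?_⟩
  rw [← sumMap_eq π hdisj v Z f ⟨B, hB⟩ he]
  have := congrArg Subtype.val hf
  exact (congrFun this e).symm

end sums

end Pool.Agent.Q131.RM
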