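import Pool.Agent.Q131.RM.Core2

/-!
# Matroid matching: families for which the bound is not attained
-/

set_option autoImplicit false
set_option linter.unusedSectionVars false

open Finset Module

namespace Pool.Agent.Q131.RM

variable {E W : Type} [DecidableEq E] [Fintype E] [AddCommGroup W] [Module ℝ W]

/-- The relation given by `β`. -/
def st {Bt : Type} (D : Finset E) (σ : E → Bt) (α : E → ℝ) (β : Bt → ℝ) : E → ℝ :=
  fun e => if e ∈ D then α e * β (σ e) else 0

/-- The data of the example. -/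
structure Data (v : E → W) (H : Finset (Finset E)) (D Ed : Finset E) {Bt : Type} [Fintype Bt]
    [DecidableEq Bt] (σ : E → Bt) (α : E → ℝ) (𝓑 : Submodule ℝ (Bt → ℝ)) : Prop where
  two : ∀ P ∈ H, P.card = 2
  disj : ∀ P ∈ H, ∀ Q ∈ H, P ≠ Q → Disjoint P Q
  same : ∀ P ∈ H, ∀ e ∈ P, ∀ f ∈ P, σ e = σ f
  meet : ∀ P ∈ H, ∃ e ∈ P, e ∈ D
  sub : D ⊆ H.biUnion id
  star : ∀ b : Bt, ∃ P ∈ H, P ⊆ D ∧ ∀ e ∈ P, σ e = b
  three : 3 ≤ Fintype.card Bt
  dim : finrank ℝ 𝓑 = 2
  ne : ∀ e ∈ D, α e ≠ 0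
  sep : ∀ b b' : Bt, b ≠ b' → ∃ β ∈ 𝓑, β b = 0 ∧ β b' ≠ 0
  str1 : ∀ ω : E → ℝ, ∑ e ∈ H.biUnion id, ω e • v e = 0 →
    ∃ β ∈ 𝓑, ∀ e ∈ H.biUnion id, ω e = st D σ α β e
  str2 : ∀ β ∈ 𝓑, ∑ e ∈ H.biUnion id, st D σ α β e • v e = 0
  cl : ∀ g ∈ Ed, v g ∈ Submodule.span ℝ (v '' (D : Set E)) → g ∈ D

namespace Data

variable {v : E → W} {H : Finset (Finset E)} {D Ed : Finset E} {Bt : Type} [Fintype Bt]
  [DecidableEq Bt] {σ : E → Bt} {α : E → ℝ} {𝓑 : Submodule ℝ (Bt → ℝ)}
  (h : Data v H D Ed σ α 𝓑)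

theorem card_biUnion_pairs {H' : Finset (Finset E)} (two : ∀ P ∈ H', P.card = 2)
    (disj : ∀ P ∈ H', ∀ Q ∈ H', P ≠ Q → Disjoint P Q) :
    (H'.biUnion id).card = 2 * H'.card := by
  rw [Finset.card_biUnion (s := H') (t := id) (fun P hP Q hQ hPQ => disj P hP Q hQ hPQ)]
  rw [Finset.sum_congr rfl (fun P hP => show (id P).card = 2 from two P hP)]
  simp [mul_comm]

include h

theorem exists_other (b : Bt) : ∃ b' : Bt, b' ≠ b := by
  have : 1 < Fintype.card Bt := by have := h.three; omega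
  exact Fintype.exists_ne_of_one_lt_card this b

theorem exists_D (b : Bt) : ∃ e ∈ D, σ e = b := by
  obtain ⟨P, hP, hPD, hPb⟩ := h.star b
  have h2 := h.two P hP
  obtain ⟨e, he⟩ : P.Nonempty := by
    rw [← Finset.card_pos, h2]; norm_num
  exact ⟨e, hPD he, hPb e he⟩

theorem finrank_stress : finrank ℝ (K v ∅ (H.biUnion id)) = 2 := by
  let S : 𝓑 →ₗ[ℝ] (E → ℝ) :=
    { toFun := fun β => st D σ α β
      map_add' := by
        intro β γ
        ext e
        simp only [st, Pi.add_apply, Submodule.coe_add]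
        split_ifs <;> ring
      map_smul' := by
        intro c β
        ext e
        simp only [st, Pi.smul_apply, Submodule.coe_smul, smul_eq_mul, RingHom.id_apply]
        split_ifs <;> ring }
  have hS : Function.Injective S := by
    rw [← LinearMap.ker_eq_bot, LinearMap.ker_eq_bot']
    intro β hβ
    apply Subtype.ext
    ext b
    obtain ⟨e, he, hb⟩ := h.exists_D b
    have h1 : st D σ α β e = 0 := congrFun hβ e
    simp only [st, he, if_true] at h1
    rcases mul_eq_zero.1 h1 with h2 | h2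
    · exact absurd h2 (h.ne e he)
    · rw [hb] at h2; exact h2
  have hr : LinearMap.range S = K v ∅ (H.biUnion id) := by
    ext ω
    rw [LinearMap.mem_range, mem_K]
    constructor
    · rintro ⟨β, rfl⟩
      refine ⟨fun e he => ?_, ?_⟩
      · have : e ∉ D := fun h' => he (h.sub h')
        simp [S, st, this]
      · have := h.str2 β β.2
        change ∑ e ∈ H.biUnion id, st D σ α β e • v e ∈ _
        rw [this]
        exact Submodule.zero_mem _
    · rintro ⟨h1, h2⟩
      simp only [Finset.coe_empty, Set.image_empty, Submodule.span_empty, Submodule.mem_bot] at h2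
      obtain ⟨β, hβ, h3⟩ := h.str1 ω h2
      refine ⟨⟨β, hβ⟩, ?_⟩
      ext e
      by_cases he : e ∈ H.biUnion id
      · exact (h3 e he).symm
      · have : e ∉ D := fun h' => he (h.sub h')
        simp [S, st, this, h1 e he]
  rw [← hr, LinearMap.finrank_range_of_inj hS, h.dim]

theorem rk_U : rk v (H.biUnion id) + 2 = (H.biUnion id).card := by
  have h1 := rk_union v ∅ (H.biUnion id)
  have h0 : rk v (∅ : Finset E) = 0 := by simp [rk]
  rw [h.finrank_stress, h0, Finset.empty_union] at h1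
  omega

theorem st_mem {β : Bt → ℝ} (hβ : β ∈ 𝓑) (Z : Finset E) : st D σ α β ∈ K v Z (H.biUnion id) := by
  refine ⟨fun e he => ?_, ?_⟩
  · have : e ∉ D := fun h' => he (h.sub h')
    simp [st, this]
  · rw [h.str2 β hβ]
    exact Submodule.zero_mem _

/-- Matchings are small. -/
theorem matching_le {H' : Finset (Finset E)} (hH' : H' ⊆ H)
    (hr : rk v (H'.biUnion id) = 2 * H'.card) : H'.card + 2 ≤ H.card := by
  by_contra hcon
  push Not at hcon
  have two' : ∀ P ∈ H', P.card = 2 := fun P hP => h.two P (hH' hP)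
  have disj' : ∀ P ∈ H', ∀ Q ∈ H', P ≠ Q → Disjoint P Q :=
    fun P hP Q hQ => h.disj P (hH' hP) Q (hH' hQ)
  have hc := card_biUnion_pairs two' disj'
  have hcU := card_biUnion_pairs h.two h.disj
  have hle := Finset.card_le_card hH'
  -- no relations on `H'`
  have hK : finrank ℝ (K v ∅ (H'.biUnion id)) = 0 := by
    have h1 := rk_union v ∅ (H'.biUnion id)
    have h0 : rk v (∅ : Finset E) = 0 := by simp [rk]
    rw [h0, Finset.empty_union, hr, hc] at h1
    omega
  have hK' : K v ∅ (H'.biUnion id) = ⊥ := Submodule.finrank_eq_zero.1 hK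
  -- the missing elements lie in one star
  have hdiff : (H \ H').card ≤ 1 := by
    rw [Finset.card_sdiff_of_subset hH']
    omega
  have hmiss : ∃ b : Bt, ∀ e ∈ H.biUnion id, e ∉ H'.biUnion id → σ e = b := by
    rcases Finset.eq_empty_or_nonempty (H \ H') with h0 | ⟨P, hP⟩
    · have hne : Nonempty Bt := by
        have := h.three
        exact Fintype.card_pos_iff.1 (by omega)
      obtain ⟨b⟩ := hne
      refine ⟨b, fun e he he' => ?_⟩
      exfalso
      rw [Finset.mem_biUnion] at he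
      obtain ⟨Q, hQ, heQ⟩ := he
      apply he'
      rw [Finset.mem_biUnion]
      refine ⟨Q, ?_, heQ⟩
      by_contra hQ'
      have : Q ∈ H \ H' := Finset.mem_sdiff.2 ⟨hQ, hQ'⟩
      rw [h0] at this
      simp at this
    · have hP' := (Finset.mem_sdiff.1 hP).1
      obtain ⟨f, hf, -⟩ := h.meet P hP'
      refine ⟨σ f, fun e he he' => ?_⟩
      rw [Finset.mem_biUnion] at he
      obtain ⟨Q, hQ, heQ⟩ := he
      have hQ' : Q ∈ H \ H' := by
        refine Finset.mem_sdiff.2 ⟨hQ, fun hQ' => he' ?_⟩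
        rw [Finset.mem_biUnion]
        exact ⟨Q, hQ', heQ⟩
      have : Q = P := Finset.card_le_one.1 hdiff Q hQ' P hP
      subst this
      exact h.same Q hQ e heQ f hf
  obtain ⟨b, hb⟩ := hmiss
  obtain ⟨b', hb'⟩ := h.exists_other b
  obtain ⟨β, hβ, h1, h2⟩ := h.sep b b' hb'.symm
  have hmem : st D σ α β ∈ K v ∅ (H'.biUnion id) := by
    have hz : ∀ e, e ∉ H'.biUnion id → st D σ α β e = 0 := by
      intro e he
      by_cases heU : e ∈ H.biUnion id
      · have := hb e heU he
        simp [st, this, h1]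
      · have : e ∉ D := fun h' => heU (h.sub h')
        simp [st, this]
    refine ⟨hz, ?_⟩
    have hsub : H'.biUnion id ⊆ H.biUnion id := Finset.biUnion_subset_biUnion_of_subset_left _ hH'
    rw [Finset.sum_subset hsub (f := fun e => st D σ α β e • v e)
      (fun e _ he => by simp only [hz e he, zero_smul]), h.str2 β hβ]
    exact Submodule.zero_mem _
  rw [hK', Submodule.mem_bot] at hmem
  obtain ⟨e, he, heb⟩ := h.exists_D b'
  have := congrFun hmem e
  simp only [st, he, if_true, heb, Pi.zero_apply, mul_eq_zero] at this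
  rcases this with h3 | h3
  · exact h.ne e he h3
  · exact h2 h3

/-- The bound is large. -/
theorem bound_ge {Z : Finset E} (hZ : Z ⊆ Ed) (π : Finpartition H) :
    H.card ≤ bound v Z π + 1 := by
  classical
  by_contra hcon
  push Not at hcon
  set U : Finset E := H.biUnion id with hU
  set δ : Finset (Finset E) → ℕ := fun B => finrank ℝ (K v Z (B.biUnion id)) with hδ
  have hcard : ∀ B ∈ π.parts, (B.biUnion id).card = 2 * B.card := by
    intro B hB
    exact card_biUnion_pairs (fun P hP => h.two P (π.le hB hP))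
      (fun P hP Q hQ => h.disj P (π.le hB hP) Q (π.le hB hQ))
  have hcU : U.card = 2 * H.card := card_biUnion_pairs h.two h.disj
  have hterm : ∀ B ∈ π.parts, δ B + (rk v (Z ∪ B.biUnion id) - rk v Z) = 2 * B.card := by
    intro B hB
    have h1 := rk_union v Z (B.biUnion id)
    have h2 : rk v Z ≤ rk v (Z ∪ B.biUnion id) := rk_mono Finset.subset_union_left
    rw [hcard B hB] at h1
    simp only [hδ]
    omega
  have hsumH : ∑ B ∈ π.parts, B.card = H.card := π.sum_card_parts
  have hsumle : ∑ B ∈ π.parts, δ B ≤ finrank ℝ (K v Z U) := sum_le π h.disj v Z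
  have hU1 := rk_union v Z U
  have hU2 : rk v U ≤ rk v (Z ∪ U) := rk_mono Finset.subset_union_right
  have hU3 : rk v U + 2 = U.card := h.rk_U
  have hb : bound v Z π = rk v Z + ∑ B ∈ π.parts, (rk v (Z ∪ B.biUnion id) - rk v Z) / 2 := rfl
  have hge : ∑ B ∈ π.parts, B.card ≤
      ∑ B ∈ π.parts, (rk v (Z ∪ B.biUnion id) - rk v Z) / 2 + ∑ B ∈ π.parts, δ B := by
    rw [← Finset.sum_add_distrib]
    refine Finset.sum_le_sum fun B hB => ?_
    have := hterm B hB
    omega
  -- all inequalities are equalities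
  have hsumeq : ∑ B ∈ π.parts, δ B = finrank ℝ (K v Z U) := by omega
  have hfull : finrank ℝ (K v Z U) = rk v Z + 2 := by omega
  have hrkU : rk v (Z ∪ U) = rk v U := by omega
  have hone : ∀ B ∈ π.parts, δ B ≤ 1 := by
    have heq : ∑ B ∈ π.parts, B.card =
        ∑ B ∈ π.parts, ((rk v (Z ∪ B.biUnion id) - rk v Z) / 2 + δ B) := by
      rw [Finset.sum_add_distrib]; omega
    have hall := (Finset.sum_eq_sum_iff_of_le (fun B hB => by
      have := hterm B hB
      show B.card ≤ (rk v (Z ∪ B.biUnion id) - rk v Z) / 2 + δ B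
      omega)).1 heq
    intro B hB
    have h1 := hall B hB
    have h2 := hterm B hB
    omega
  -- each part lies in one star
  have huniq : ∀ B ∈ π.parts, ∀ e ∈ B.biUnion id, ∀ f ∈ B.biUnion id, e ∈ D → f ∈ D →
      σ e = σ f := by
    intro B hB e he f hf heD hfD
    by_contra hne
    obtain ⟨β, hβ, h1, h2⟩ := h.sep _ _ hne
    obtain ⟨γ, hγ, h3, h4⟩ := h.sep _ _ (Ne.symm hne)
    obtain ⟨τ, hτ, h5⟩ := restr π h.disj v Z hsumeq (h.st_mem hβ Z) hB
    obtain ⟨ρ, hρ, h6⟩ := restr π h.disj v Z hsumeq (h.st_mem hγ Z) hB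
    obtain ⟨u, hu⟩ := finrank_le_one_iff.1 (hone B hB)
    obtain ⟨c, hc⟩ := hu ⟨τ, hτ⟩
    obtain ⟨c', hc'⟩ := hu ⟨ρ, hρ⟩
    have e1 : ∀ x, c * (u : E → ℝ) x = τ x := fun x => congrFun (congrArg Subtype.val hc) x
    have e2 : ∀ x, c' * (u : E → ℝ) x = ρ x := fun x => congrFun (congrArg Subtype.val hc') x
    have a1 : τ f ≠ 0 := by
      rw [← h5 f hf]
      simp only [st, hfD, if_true]
      exact mul_ne_zero (h.ne f hfD) h2
    have a2 : τ e = 0 := by
      rw [← h5 e he]
      simp [st, h1]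
    have a3 : ρ e ≠ 0 := by
      rw [← h6 e he]
      simp only [st, heD, if_true]
      exact mul_ne_zero (h.ne e heD) h4
    rw [← e1] at a1 a2
    rw [← e2] at a3
    have b1 : c ≠ 0 := fun h0 => a1 (by rw [h0, zero_mul])
    have b2 : (u : E → ℝ) e = 0 := by
      rcases mul_eq_zero.1 a2 with h0 | h0
      · exact absurd h0 b1
      · exact h0
    exact a3 (by rw [b2, mul_zero])
  -- each part contains an element of `D`
  have hD : ∀ B ∈ π.parts, ∃ e ∈ B.biUnion id, e ∈ D := by
    intro B hB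
    obtain ⟨P, hP⟩ := π.nonempty_of_mem_parts hB
    obtain ⟨e, he, heD⟩ := h.meet P (π.le hB hP)
    exact ⟨e, Finset.mem_biUnion.2 ⟨P, hP, he⟩, heD⟩
  -- the relations of a part
  have hprop : ∀ B ∈ π.parts, (0 < δ B) ∧ ∀ ω ∈ K v Z U, ∃ c : ℝ, ∀ e ∈ B.biUnion id,
      ω e = if e ∈ D then c * α e else 0 := by
    intro B hB
    obtain ⟨e0, he0, he0D⟩ := hD B hB
    obtain ⟨b', hb'⟩ := h.exists_other (σ e0)
    obtain ⟨β, hβ, h1, h2⟩ := h.sep _ _ hb'
    obtain ⟨τ, hτ, h5⟩ := restr π h.disj v Z hsumeq (h.st_mem hβ Z) hB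
    have a1 : τ e0 ≠ 0 := by
      rw [← h5 e0 he0]
      simp only [st, he0D, if_true]
      exact mul_ne_zero (h.ne e0 he0D) h2
    obtain ⟨u, hu⟩ := finrank_le_one_iff.1 (hone B hB)
    obtain ⟨c, hc⟩ := hu ⟨τ, hτ⟩
    have e1 : ∀ x, c * (u : E → ℝ) x = τ x := fun x => congrFun (congrArg Subtype.val hc) x
    have hc0 : c ≠ 0 := by
      intro h0
      apply a1
      rw [← e1, h0, zero_mul]
    constructor
    · rw [Nat.pos_iff_ne_zero]
      intro h0
      have h0' : K v Z (B.biUnion id) = ⊥ := Submodule.finrank_eq_zero.1 h0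
      rw [h0', Submodule.mem_bot] at hτ
      exact a1 (by rw [hτ]; rfl)
    · intro ω hω
      obtain ⟨ρ, hρ, h6⟩ := restr π h.disj v Z hsumeq hω hB
      obtain ⟨c', hc'⟩ := hu ⟨ρ, hρ⟩
      have e2 : ∀ x, c' * (u : E → ℝ) x = ρ x := fun x => congrFun (congrArg Subtype.val hc') x
      refine ⟨c' / c * β (σ e0), fun e he => ?_⟩
      have e3 : (u : E → ℝ) e = τ e / c := by
        rw [← e1]; field_simp
      rw [h6 e he, ← e2, e3, ← h5 e he]
      by_cases heD : e ∈ D
      · rw [if_pos heD]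
        simp only [st, heD, if_true]
        rw [huniq B hB e he e0 he0 heD he0D]
        ring
      · simp [st, heD]
  -- elements of `Z`
  have hZel : ∀ g ∈ Z, ∃ B ∈ π.parts, g ∈ B.biUnion id ∧ g ∈ D ∧
      ∀ e ∈ B.biUnion id, e ∈ D → e = g := by
    intro g hg
    have hspan : Submodule.span ℝ (v '' (U : Set E)) =
        Submodule.span ℝ (v '' ((Z ∪ U : Finset E) : Set E)) := by
      apply Submodule.eq_of_le_of_finrank_eq
      · exact Submodule.span_mono (Set.image_mono (Finset.coe_subset.2 Finset.subset_union_right))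
      · exact hrkU.symm
    have hgU : v g ∈ Submodule.span ℝ (v '' (U : Set E)) := by
      rw [hspan]
      exact Submodule.subset_span ⟨g, by simp [hg], rfl⟩
    obtain ⟨φ, hφ⟩ := (Submodule.mem_span_image_finset_iff_exists_fun ℝ).1 hgU
    set ω : E → ℝ := fun e => if he : e ∈ U then φ ⟨e, he⟩ else 0 with hω
    have hωsum : ∑ e ∈ U, ω e • v e = v g := by
      rw [← hφ, ← Finset.sum_coe_sort U]
      exact Finset.sum_congr rfl fun e _ => by simp [hω]
    have hωK : ω ∈ K v Z U := by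
      refine ⟨fun e he => by simp [hω, he], ?_⟩
      rw [hωsum]
      exact Submodule.subset_span ⟨g, hg, rfl⟩
    have hωD : ∀ e ∈ U, e ∉ D → ω e = 0 := by
      intro e he heD
      obtain ⟨B, hB, heB⟩ := exists_part π he
      obtain ⟨c, hc⟩ := (hprop B hB).2 ω hωK
      rw [hc e heB, if_neg heD]
    have hgspan : v g ∈ Submodule.span ℝ (v '' (D : Set E)) := by
      rw [← hωsum, ← Finset.sum_subset h.sub (f := fun e => ω e • v e)
        (fun e he he' => by simp only [hωD e he he', zero_smul])]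
      exact Submodule.sum_mem _ fun e he => Submodule.smul_mem _ _
        (Submodule.subset_span ⟨e, he, rfl⟩)
    have hgD : g ∈ D := h.cl g (hZ hg) hgspan
    have hgU' : g ∈ U := h.sub hgD
    obtain ⟨B, hB, hgB⟩ := exists_part π hgU'
    refine ⟨B, hB, hgB, hgD, fun e he heD => ?_⟩
    by_contra hne
    obtain ⟨c, hc⟩ := (hprop B hB).2 ω hωK
    obtain ⟨β, hβ, h7⟩ := h.str1 (fun x => ω x - if x = g then 1 else 0) (by
      simp only [sub_smul, Finset.sum_sub_distrib]
      rw [hωsum]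
      simp only [ite_smul, one_smul, zero_smul]
      rw [Finset.sum_ite_eq' U g, if_pos hgU', sub_self])
    have h8 := h7 e (sub_part π hB he)
    have h9 := h7 g hgU'
    simp only [if_neg hne, if_true, sub_zero] at h8 h9
    rw [hc e he, if_pos heD] at h8
    rw [hc g hgB, if_pos hgD] at h9
    simp only [st, heD, hgD, if_true] at h8 h9
    rw [huniq B hB e he g hgB heD hgD] at h8
    have h10 : c = β (σ g) := by
      have := h.ne e heD
      field_simp at h8
      linarith
    rw [h10] at h9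
    linarith
  -- counting
  have hparts : π.parts.card = rk v Z + 2 := by
    rw [← hfull, ← hsumeq, Finset.card_eq_sum_ones]
    refine Finset.sum_congr rfl fun B hB => ?_
    have h1 := hone B hB
    have h2 := (hprop B hB).1
    omega
  set S1 := π.parts.filter (fun B => ∃ g ∈ Z, g ∈ B.biUnion id ∧ g ∈ D ∧
    ∀ e ∈ B.biUnion id, e ∈ D → e = g) with hS1
  have hZS : Z.card ≤ S1.card := by
    choose! F hF using hZel
    refine Finset.card_le_card_of_injOn F (fun g hg => ?_) (fun g hg g' hg' hgg => ?_)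
    · obtain ⟨h1, h2, h3, h4⟩ := hF g hg
      exact Finset.mem_coe.2 (Finset.mem_filter.2 ⟨h1, g, hg, h2, h3, h4⟩)
    · obtain ⟨h1, h2, h3, h4⟩ := hF g hg
      obtain ⟨h1', h2', h3', h4'⟩ := hF g' hg'
      rw [hgg] at h2
      exact h4' g h2 h3
  have hstar : Fintype.card Bt ≤ (π.parts \ S1).card := by
    have hex : ∀ b : Bt, ∃ B ∈ π.parts \ S1, ∃ e ∈ B.biUnion id, e ∈ D ∧ σ e = b := by
      intro b
      obtain ⟨P, hP, hPD, hPb⟩ := h.star b
      obtain ⟨B, hB, hPB⟩ := π.exists_mem hP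
      obtain ⟨x, y, hxy, hPxy⟩ := Finset.card_eq_two.1 (h.two P hP)
      have hx : x ∈ P := by rw [hPxy]; simp
      have hy : y ∈ P := by rw [hPxy]; simp
      have hxB : x ∈ B.biUnion id := Finset.mem_biUnion.2 ⟨P, hPB, hx⟩
      have hyB : y ∈ B.biUnion id := Finset.mem_biUnion.2 ⟨P, hPB, hy⟩
      refine ⟨B, Finset.mem_sdiff.2 ⟨hB, fun hBS => ?_⟩, x, hxB, hPD hx, hPb x hx⟩
      obtain ⟨-, g, -, -, -, hg⟩ := Finset.mem_filter.1 hBS
      exact hxy ((hg x hxB (hPD hx)).trans (hg y hyB (hPD hy)).symm)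
    choose F hF using hex
    rw [← Finset.card_univ]
    refine Finset.card_le_card_of_injOn F (fun b _ => (hF b).1) (fun b _ b' _ hbb => ?_)
    obtain ⟨h1, e, he, heD, heb⟩ := hF b
    obtain ⟨h1', e', he', heD', heb'⟩ := hF b'
    rw [hbb] at he
    rw [← heb, ← heb']
    exact huniq _ (Finset.mem_sdiff.1 h1').1 e he e' he' heD heD'
  have hS1sub : S1 ⊆ π.parts := Finset.filter_subset _ _
  rw [Finset.card_sdiff_of_subset hS1sub, hparts] at hstar
  have h3 := h.three
  have hle := rk_le_card v Z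
  omega

end Data

end Pool.Agent.Q131.RM
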