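import Pool.Agent.Q131.RM.Rows

/-!
# The example
-/

set_option autoImplicit false
set_option linter.unusedSectionVars false

open Finset Module

namespace Pool.Agent.Q131.RM

abbrev AI (k : ℕ) : Type := Option (Fin (k + 1) × Bool)
abbrev BI (k : ℕ) : Type := Fin (2 * k + 4)
abbrev XI (k : ℕ) : Type := (AI k × BI k) ⊕ BI k

theorem card_AI (k : ℕ) : Fintype.card (AI k) = (2 * k + 1) + 2 := by
  simp [AI]
  omega

theorem card_BI (k : ℕ) : Fintype.card (BI k) = (2 * k + 1) + 3 := by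
  simp [BI]

variable {V : Type} [Fintype V] [DecidableEq V] {k : ℕ}
  {f : AI k ⊕ (BI k ⊕ BI k) → V} (hf : Function.Injective f)

include hf in
theorem fab (x : AI k) (y : BI k) : f (Sum.inl x) ≠ f (Sum.inr (Sum.inl y)) :=
  fun h => by simpa using hf h

include hf in
theorem fwa (x : AI k) (y : BI k) : f (Sum.inr (Sum.inr y)) ≠ f (Sum.inl x) :=
  fun h => by simpa using hf h

include hf in
theorem fwb (x : BI k) (y : BI k) : f (Sum.inr (Sum.inr y)) ≠ f (Sum.inr (Sum.inl x)) :=
  fun h => by simpa using hf h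

/-- The edges of the example. -/
def eU : XI k → Edge V
  | Sum.inl (x, y) => mk (f (Sum.inl x)) (f (Sum.inr (Sum.inl y))) (fab hf x y)
  | Sum.inr y => mk (f (Sum.inr (Sum.inr y))) (f (Sum.inl none)) (fwa hf none y)

theorem mk_inj {u v u' v' : V} (h : u ≠ v) (h' : u' ≠ v') (e : mk u v h = mk u' v' h') :
    (u = u' ∧ v = v') ∨ (u = v' ∧ v = u') := by
  have := congrArg Subtype.val e
  simpa [mk] using this

theorem eU_inj : Function.Injective (eU hf) := by
  rintro (⟨x, y⟩ | y) (⟨x', y'⟩ | y') h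
  · rcases mk_inj (fab hf x y) (fab hf x' y') h with ⟨h1, h2⟩ | ⟨h1, h2⟩
    · have a1 := hf h1
      have a2 := hf h2
      simp only [Sum.inl.injEq, Sum.inr.injEq] at a1 a2
      rw [a1, a2]
    · exact absurd h1 (fab hf _ _)
  · rcases mk_inj (fab hf x y) (fwa hf none y') h with ⟨h1, h2⟩ | ⟨h1, h2⟩
    · exact absurd h1.symm (fwa hf _ _)
    · exact absurd h2.symm (fwb hf _ _)
  · rcases mk_inj (fwa hf none y) (fab hf x' y') h with ⟨h1, h2⟩ | ⟨h1, h2⟩
    · exact absurd h1 (fwa hf _ _)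
    · exact absurd h1 (fwb hf _ _)
  · rcases mk_inj (fwa hf none y) (fwa hf none y') h with ⟨h1, h2⟩ | ⟨h1, h2⟩
    · have a1 := hf h1
      simp only [Sum.inr.injEq] at a1
      rw [a1]
    · exact absurd h1 (fwa hf _ _)

/-- The pair of an edge. -/
def κ : XI k → BI k × Option (Fin (k + 1))
  | Sum.inl (x, y) => (y, x.map Prod.fst)
  | Sum.inr y => (y, none)

/-- The pairs of the example. -/
def PU (z : BI k × Option (Fin (k + 1))) : Finset (Edge V) :=
  match z with
  | (y, none) => {eU hf (Sum.inl (none, y)), eU hf (Sum.inr y)}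
  | (y, some i) => {eU hf (Sum.inl (some (i, false), y)), eU hf (Sum.inl (some (i, true), y))}

theorem mem_PU (z : BI k × Option (Fin (k + 1))) (e : Edge V) :
    e ∈ PU hf z ↔ ∃ x, κ x = z ∧ eU hf x = e := by
  obtain ⟨y, o | i⟩ := z
  · simp only [PU, Finset.mem_insert, Finset.mem_singleton]
    constructor
    · rintro (rfl | rfl)
      · exact ⟨_, rfl, rfl⟩
      · exact ⟨_, rfl, rfl⟩
    · rintro ⟨x, hx, rfl⟩
      rcases x with ⟨x, y'⟩ | y'
      · simp only [κ, Prod.mk.injEq, Option.map_eq_none_iff] at hx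
        rw [hx.1, hx.2]
        exact Or.inl rfl
      · simp only [κ, Prod.mk.injEq, and_true] at hx
        rw [hx]
        exact Or.inr rfl
  · simp only [PU, Finset.mem_insert, Finset.mem_singleton]
    constructor
    · rintro (rfl | rfl)
      · exact ⟨_, rfl, rfl⟩
      · exact ⟨_, rfl, rfl⟩
    · rintro ⟨x, hx, rfl⟩
      rcases x with ⟨x, y'⟩ | y'
      · simp only [κ, Prod.mk.injEq, Option.map_eq_some_iff] at hx
        obtain ⟨h1, ⟨j, t⟩, h2, h3⟩ := hx
        simp only at h3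
        rw [h1, h2, h3]
        cases t
        · exact Or.inl rfl
        · exact Or.inr rfl
      · simp [κ] at hx

theorem card_PU (z : BI k × Option (Fin (k + 1))) : (PU hf z).card = 2 := by
  obtain ⟨y, o | i⟩ := z
  · exact Finset.card_pair ((eU_inj hf).ne (by simp))
  · exact Finset.card_pair ((eU_inj hf).ne (by simp))

/-- The family of pairs. -/
def HU : Finset (Finset (Edge V)) := Finset.univ.image (PU hf)

theorem mem_HU {P : Finset (Edge V)} : P ∈ HU hf ↔ ∃ z, PU hf z = P := by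
  simp [HU]

theorem biUnion_HU : (HU hf).biUnion id = Finset.univ.image (eU hf) := by
  ext e
  simp only [Finset.mem_biUnion, mem_HU, id, Finset.mem_image, Finset.mem_univ, true_and]
  constructor
  · rintro ⟨P, ⟨z, rfl⟩, he⟩
    obtain ⟨x, -, hx⟩ := (mem_PU hf z e).1 he
    exact ⟨x, hx⟩
  · rintro ⟨x, rfl⟩
    exact ⟨_, ⟨κ x, rfl⟩, (mem_PU hf _ _).2 ⟨x, rfl, rfl⟩⟩

/-- The complete bipartite graph. -/
def DU : Finset (Edge V) := Finset.univ.image (fun z => eU hf (Sum.inl z))

theorem mem_DU {e : Edge V} : e ∈ DU hf ↔ ∃ z, eU hf (Sum.inl z) = e := by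
  simp [DU]

theorem not_mem_DU (y : BI k) : eU hf (Sum.inr y) ∉ DU hf := by
  rw [mem_DU]
  rintro ⟨z, hz⟩
  exact absurd (eU_inj hf hz) (by simp)

/-- The class of an edge. -/
noncomputable def sU : Edge V → BI k :=
  Function.extend (eU hf) (fun x => (κ x).1) (fun _ => ⟨0, by omega⟩)

theorem sU_eU (x : XI k) : sU hf (eU hf x) = (κ x).1 := (eU_inj hf).extend_apply _ _ x

/-- The coefficients of the edges. -/
noncomputable def aU (α : AI k → ℝ) : Edge V → ℝ :=
  Function.extend (eU hf) (Sum.elim (fun z => α z.1) (fun _ => 0)) (fun _ => 0)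

theorem aU_eU (α : AI k → ℝ) (x : AI k) (y : BI k) :
    aU hf α (eU hf (Sum.inl (x, y))) = α x := (eU_inj hf).extend_apply _ _ _

theorem sum_HU {M : Type} [AddCommMonoid M] (F : Edge V → M) :
    ∑ e ∈ (HU hf).biUnion id, F e =
      ∑ x, ∑ y, F (eU hf (Sum.inl (x, y))) + ∑ y, F (eU hf (Sum.inr y)) := by
  rw [biUnion_HU, Finset.sum_image (fun _ _ _ _ h => eU_inj hf h), Fintype.sum_sum_type,
    Fintype.sum_prod_type]

theorem st_inl (α : AI k → ℝ) (β : BI k → ℝ) (x : AI k) (y : BI k) :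
    st (DU hf) (sU hf) (aU hf α) β (eU hf (Sum.inl (x, y))) = α x * β y := by
  rw [st, if_pos ((mem_DU hf).2 ⟨_, rfl⟩), aU_eU, sU_eU]
  rfl

theorem st_inr (α : AI k → ℝ) (β : BI k → ℝ) (y : BI k) :
    st (DU hf) (sU hf) (aU hf α) β (eU hf (Sum.inr y)) = 0 := by
  rw [st, if_neg (not_mem_DU hf y)]

/-- The example has the required properties. -/
theorem data_U {p : V → Fin (2 * k + 1) → ℝ} (hp : Gen p) (hk : 2 ≤ k) :
    ∃ (α : Edge V → ℝ) (𝓑 : Submodule ℝ (BI k → ℝ)),
      Data (row p) (HU hf) (DU hf) Finset.univ (sU hf) α 𝓑 := by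
  have hd : 4 ≤ 2 * k + 1 := by omega
  have ha : Function.Injective (fun x : AI k => f (Sum.inl x)) :=
    fun x y h => by simpa using hf h
  have hb : Function.Injective (fun x : BI k => f (Sum.inr (Sum.inl x))) :=
    fun x y h => by simpa using hf h
  have hcard : Fintype.card (AI k) + Fintype.card (BI k) = 2 * (2 * k + 1) + 5 := by
    rw [card_AI, card_BI]; omega
  obtain ⟨α, hα1, hα2, hα3⟩ := exists_alpha hp (card_AI k) (fun x => f (Sum.inl x)) ha
  refine ⟨aU hf α, dep p (fun y => f (Sum.inr (Sum.inl y))), ?_⟩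
  refine
    { two := ?_
      disj := ?_
      same := ?_
      meet := ?_
      sub := ?_
      star := ?_
      three := ?_
      dim := ?_
      ne := ?_
      sep := ?_
      str1 := ?_
      str2 := ?_
      cl := ?_ }
  · intro P hP
    obtain ⟨z, rfl⟩ := (mem_HU hf).1 hP
    exact card_PU hf z
  · intro P hP Q hQ hPQ
    obtain ⟨z, rfl⟩ := (mem_HU hf).1 hP
    obtain ⟨w, rfl⟩ := (mem_HU hf).1 hQ
    rw [Finset.disjoint_left]
    intro e he he'
    obtain ⟨x, hx, hxe⟩ := (mem_PU hf z e).1 he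
    obtain ⟨y, hy, hye⟩ := (mem_PU hf w e).1 he'
    have hxy : x = y := eU_inj hf (hxe.trans hye.symm)
    apply hPQ
    rw [← hx, ← hy, hxy]
  · intro P hP e he g hg
    obtain ⟨z, rfl⟩ := (mem_HU hf).1 hP
    obtain ⟨x, hx, rfl⟩ := (mem_PU hf z e).1 he
    obtain ⟨y, hy, rfl⟩ := (mem_PU hf z g).1 hg
    rw [sU_eU, sU_eU, hx, hy]
  · intro P hP
    obtain ⟨⟨y, o⟩, rfl⟩ := (mem_HU hf).1 hP
    rcases o with _ | i
    · exact ⟨eU hf (Sum.inl (none, y)), (mem_PU hf _ _).2 ⟨_, rfl, rfl⟩, (mem_DU hf).2 ⟨_, rfl⟩⟩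
    · exact ⟨eU hf (Sum.inl (some (i, false), y)), (mem_PU hf _ _).2 ⟨_, rfl, rfl⟩,
        (mem_DU hf).2 ⟨_, rfl⟩⟩
  · intro e he
    obtain ⟨z, rfl⟩ := (mem_DU hf).1 he
    rw [biUnion_HU]
    exact Finset.mem_image_of_mem _ (Finset.mem_univ _)
  · intro y
    refine ⟨PU hf (y, some 0), (mem_HU hf).2 ⟨_, rfl⟩, fun e he => ?_, fun e he => ?_⟩
    · simp only [PU, Finset.mem_insert, Finset.mem_singleton] at he
      rcases he with rfl | rfl
      · exact (mem_DU hf).2 ⟨_, rfl⟩
      · exact (mem_DU hf).2 ⟨_, rfl⟩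
    · obtain ⟨x, hx, rfl⟩ := (mem_PU hf _ e).1 he
      rw [sU_eU, hx]
  · rw [card_BI]; omega
  · exact finrank_dep hp (card_BI k) _ hb
  · intro e he
    obtain ⟨⟨x, y⟩, rfl⟩ := (mem_DU hf).1 he
    rw [aU_eU]
    exact hα1 x
  · intro y y' hyy
    obtain ⟨β, h1, h2, h3⟩ := exists_beta hp (card_BI k) (fun y => f (Sum.inr (Sum.inl y))) hb y
    exact ⟨β, h1, h2, h3 y' hyy.symm⟩
  · intro ω hω
    rw [sum_HU] at hω
    have hz : ∀ z i, ∑ x, ∑ y, ω (eU hf (Sum.inl (x, y))) *
        row p (mk (f (Sum.inl x)) (f (Sum.inr (Sum.inl y))) (fab hf x y)) z i +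
        ∑ y, ω (eU hf (Sum.inr y)) * ((if z = f (Sum.inr (Sum.inr y)) then
          p (f (Sum.inr (Sum.inr y))) i - p (f (Sum.inl none)) i else 0) +
          (if z = f (Sum.inl none) then
          p (f (Sum.inl none)) i - p (f (Sum.inr (Sum.inr y))) i else 0)) = 0 := by
      intro z i
      have h1 := congrFun (congrFun hω z) i
      simp only [Pi.add_apply, Finset.sum_apply, Pi.smul_apply, smul_eq_mul, Pi.zero_apply] at h1
      refine Eq.trans ?_ h1
      congr 1
      refine Finset.sum_congr rfl fun y _ => ?_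
      rw [← row_mk p _ _ (fwa hf none y) z i]
      rfl
    have hw : ∀ y, ω (eU hf (Sum.inr y)) = 0 := by
      intro y
      obtain ⟨i, hi⟩ := pts_ne hp (by omega) (fwa hf none y)
      have h1 := hz (f (Sum.inr (Sum.inr y))) i
      rw [row_sum_o p (fab hf) (fun x y => ω (eU hf (Sum.inl (x, y)))) _
        (fun x => fwa hf x y) (fun x => fwb hf x y), zero_add] at h1
      simp only [hf.eq_iff, Sum.inr.injEq, reduceCtorEq, if_false, add_zero, mul_ite, mul_zero,
        Finset.sum_ite_eq, Finset.mem_univ, if_true] at h1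
      rcases mul_eq_zero.1 h1 with h2 | h2
      · exact h2
      · exact absurd (sub_eq_zero.1 h2) hi
    simp only [hw, zero_mul, Finset.sum_const_zero, add_zero] at hz
    obtain ⟨s1, s2⟩ := stress_sums hp hd hcard ha hb (fab hf)
      (by rw [card_AI]; omega) (ω := fun x y => ω (eU hf (Sum.inl (x, y))))
      (fun x i => by
        rw [← row_sum_a p ha (fab hf) (fun x y => ω (eU hf (Sum.inl (x, y)))) x i]
        exact hz _ i)
      (fun y i => by
        rw [← row_sum_b p hb (fab hf) (fun x y => ω (eU hf (Sum.inl (x, y)))) y i]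
        exact hz _ i)
    have s3 : ∀ y, ∃ t : ℝ, ∀ x, ω (eU hf (Sum.inl (x, y))) = t * α x := by
      intro y
      exact hα3 (fun x => ω (eU hf (Sum.inl (x, y)))) (fun i => s2 y i)
    choose t ht using s3
    refine ⟨t, ?_, ?_⟩
    · intro i
      have h1 := s1 none i
      simp only [ht] at h1
      have h2 : α none * ∑ y, t y * hat (p (f (Sum.inr (Sum.inl y)))) i = 0 := by
        rw [Finset.mul_sum, ← h1]
        exact Finset.sum_congr rfl fun y _ => by ring
      rcases mul_eq_zero.1 h2 with h3 | h3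
      · exact absurd h3 (hα1 none)
      · exact h3
    · intro e he
      rw [biUnion_HU] at he
      obtain ⟨x, -, rfl⟩ := Finset.mem_image.1 he
      rcases x with ⟨x, y⟩ | y
      · rw [st_inl, ht, mul_comm]
      · rw [st_inr, hw]
  · intro β hβ
    rw [sum_HU]
    simp only [st_inl, st_inr, zero_smul, Finset.sum_const_zero, add_zero]
    funext z i
    simp only [Finset.sum_apply, Pi.smul_apply, smul_eq_mul, Pi.zero_apply]
    exact prod_stress (fab hf) hα2 hβ z i
  · intro g _ hg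
    obtain ⟨φ, hφ⟩ := (Submodule.mem_span_image_finset_iff_exists_fun ℝ).1 hg
    let ω : AI k → BI k → ℝ := fun x y => φ ⟨eU hf (Sum.inl (x, y)), (mem_DU hf).2 ⟨_, rfl⟩⟩
    obtain ⟨x, y, hxy⟩ := closure_bip hp hd hcard ha hb (fab hf) ω g (by
      intro z i
      rw [← hφ]
      let F : Edge V → ℝ := fun e => if he : e ∈ DU hf then φ ⟨e, he⟩ else 0
      have h1 : ∑ e : DU hf, φ e • row p e = ∑ e ∈ DU hf, F e • row p e := by
        rw [← Finset.sum_coe_sort (DU hf)]
        refine Finset.sum_congr rfl fun e _ => ?_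
        simp only [F, dif_pos e.2]
      rw [h1, DU, Finset.sum_image (fun _ _ _ _ h => Sum.inl_injective (eU_inj hf h)),
        Fintype.sum_prod_type]
      simp only [Finset.sum_apply, Pi.smul_apply, smul_eq_mul]
      refine Finset.sum_congr rfl fun x _ => Finset.sum_congr rfl fun y _ => ?_
      have h2 : F (eU hf (Sum.inl (x, y))) = ω x y := dif_pos ((mem_DU hf).2 ⟨_, rfl⟩)
      rw [h2]
      rfl)
    exact (mem_DU hf).2 ⟨(x, y), hxy.symm⟩

end Pool.Agent.Q131.RM
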