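import Mathlib

/-!
# Generic points: affine independence and quadrics
-/

set_option autoImplicit false
set_option linter.unusedSectionVars false

open Finset Module

namespace Pool.Agent.Q131.RM

variable {V : Type} [Fintype V] [DecidableEq V] {d : ℕ}

/-- The coordinates are algebraically independent. -/
def Gen (p : V → Fin d → ℝ) : Prop := AlgebraicIndependent ℚ (fun c : V × Fin d => p c.1 c.2)

/-- A linear system with polynomial coefficients which has only the trivial solution at some point
has only the trivial solution at generic points. -/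
theorem transfer {p : V → Fin d → ℝ} (hp : Gen p) {J ι : Type} [Fintype J] [DecidableEq J]
    [Fintype ι] (P : J → ι → MvPolynomial (V × Fin d) ℚ) (q : V × Fin d → ℝ)
    (hq : ∀ c : J → ℝ, (∀ i, ∑ j, c j * MvPolynomial.aeval q (P j i) = 0) → c = 0) :
    ∀ c : J → ℝ,
      (∀ i, ∑ j, c j * MvPolynomial.aeval (fun x : V × Fin d => p x.1 x.2) (P j i) = 0) →
        c = 0 := by
  let M : Matrix J ι (MvPolynomial (V × Fin d) ℚ) := Matrix.of P
  let G : Matrix J J (MvPolynomial (V × Fin d) ℚ) := M * M.transpose
  have hG : ∀ x : V × Fin d → ℝ, (MvPolynomial.aeval x (R := ℚ)) G.det =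
      ((M.map (MvPolynomial.aeval x (R := ℚ))) *
        (M.map (MvPolynomial.aeval x (R := ℚ))).transpose).det := by
    intro x
    rw [AlgHom.map_det]
    congr 1
    ext i j
    simp [G, Matrix.mul_apply, map_sum]
  have hdq : ((M.map (MvPolynomial.aeval q (R := ℚ))) *
        (M.map (MvPolynomial.aeval q (R := ℚ))).transpose).det ≠ 0 := by
    intro h0
    obtain ⟨c, hc0, hc⟩ := Matrix.exists_mulVec_eq_zero_iff.2 h0
    apply hc0
    apply hq
    set N := M.map (MvPolynomial.aeval q (R := ℚ)) with hN
    have h1 : N.transpose.mulVec c = 0 := by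
      have h2 : dotProduct (N.transpose.mulVec c) (N.transpose.mulVec c) = 0 := by
        have h3 : dotProduct c ((N * N.transpose).mulVec c) = 0 := by rw [hc]; simp
        rw [← Matrix.mulVec_mulVec, Matrix.dotProduct_mulVec, ← Matrix.mulVec_transpose] at h3
        exact h3
      exact dotProduct_self_eq_zero.1 h2
    intro i
    have h4 := congrFun h1 i
    simp only [Matrix.mulVec, dotProduct, Matrix.transpose_apply, Pi.zero_apply] at h4
    rw [← h4]
    refine Finset.sum_congr rfl fun j _ => ?_
    simp [hN, M, mul_comm]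
  have hdp : ((M.map (MvPolynomial.aeval (fun x : V × Fin d => p x.1 x.2) (R := ℚ))) *
        (M.map (MvPolynomial.aeval (fun x : V × Fin d => p x.1 x.2) (R := ℚ))).transpose).det ≠
          0 := by
    rw [← hG]
    intro h0
    have h1 : G.det = 0 := AlgebraicIndependent.eq_zero_of_aeval_eq_zero hp _ h0
    apply hdq
    rw [← hG, h1, map_zero]
  intro c hc
  by_contra hc0
  apply hdp
  refine Matrix.exists_mulVec_eq_zero_iff.1 ⟨c, hc0, ?_⟩
  rw [← Matrix.mulVec_mulVec]
  have h1 : (M.map (MvPolynomial.aeval (fun x : V × Fin d => p x.1 x.2)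
      (R := ℚ))).transpose.mulVec c = 0 := by
    ext i
    simp only [Matrix.mulVec, dotProduct, Matrix.transpose_apply, Pi.zero_apply]
    rw [← hc i]
    refine Finset.sum_congr rfl fun j _ => ?_
    simp [M, mul_comm]
  rw [h1, Matrix.mulVec_zero]

/-- Homogeneous coordinates. -/
def hat (x : Fin d → ℝ) : Fin (d + 1) → ℝ := Fin.cons 1 x

@[simp] theorem hat_zero (x : Fin d → ℝ) : hat x 0 = 1 := rfl
@[simp] theorem hat_succ (x : Fin d → ℝ) (i : Fin d) : hat x i.succ = x i := rfl

/-- Homogeneous coordinates as polynomials. -/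
noncomputable def hatP (v : V) : Fin (d + 1) → MvPolynomial (V × Fin d) ℚ :=
  Fin.cons 1 (fun i => MvPolynomial.X (v, i))

theorem aeval_hatP (q : V × Fin d → ℝ) (v : V) (i : Fin (d + 1)) :
    MvPolynomial.aeval q (hatP v i) = hat (fun i => q (v, i)) i := by
  refine Fin.cases ?_ (fun i => ?_) i
  · simp [hatP]
  · simp [hatP]

/-- Any `d + 1` generic points are affinely independent. -/
theorem affine_indep {p : V → Fin d → ℝ} (hp : Gen p) (f : Fin (d + 1) → V)
    (hf : Function.Injective f) (c : Fin (d + 1) → ℝ)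
    (hc : ∀ i, ∑ j, c j * hat (p (f j)) i = 0) : c = 0 := by
  refine transfer hp (J := Fin (d + 1)) (ι := Fin (d + 1)) (fun j i => hatP (f j) i)
    (fun x => if x.1 = f x.2.succ then 1 else 0) ?_ c ?_
  · intro c hc
    simp only [aeval_hatP] at hc
    have h1 : ∀ i : Fin d, c i.succ = 0 := by
      intro i
      have := hc i.succ
      simp only [hat_succ, mul_ite, mul_one, mul_zero] at this
      simpa [hf.eq_iff] using this
    have h2 := hc 0
    simp only [hat_zero, mul_one] at h2
    rw [Fin.sum_univ_succ] at h2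
    simp only [h1, Finset.sum_const_zero, add_zero] at h2
    ext j
    refine Fin.cases h2 (fun i => h1 i) j
  · intro i
    simp only [aeval_hatP]
    exact hc i

/-- The index type of the points in the quadric lemma. -/
abbrev QI (d : ℕ) : Type := Fin d ⊕ (Fin d ⊕ (Unit ⊕ Fin 4))

/-- Special positions. -/
def role (hd : 4 ≤ d) : QI d → Fin d → ℝ
  | Sum.inl t => Pi.single t 1
  | Sum.inr (Sum.inl t) => Pi.single t 2
  | Sum.inr (Sum.inr (Sum.inl _)) => 0
  | Sum.inr (Sum.inr (Sum.inr r)) =>
      Pi.single ⟨(r.1 / 2), by have := r.2; omega⟩ 1 + Pi.single ⟨2 + r.1 % 2, by omega⟩ 1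

/-- Squares of `2d + 5` generic points and one product are linearly independent, if `d ≥ 4`. -/
theorem quadric_indep {p : V → Fin d → ℝ} (hp : Gen p) (hd : 4 ≤ d) (f : QI d → V)
    (hf : Function.Injective f) (c : QI d → ℝ) (c0 : ℝ)
    (hc : ∀ i k : Fin (d + 1), ∑ j, c j * (hat (p (f j)) i * hat (p (f j)) k) +
      c0 * (hat (p (f (Sum.inl ⟨0, by omega⟩))) i * hat (p (f (Sum.inl ⟨1, by omega⟩))) k +
        hat (p (f (Sum.inl ⟨1, by omega⟩))) i * hat (p (f (Sum.inl ⟨0, by omega⟩))) k) = 0) :
    c = 0 ∧ c0 = 0 := by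
  have key := transfer hp (J := Option (QI d)) (ι := Fin (d + 1) × Fin (d + 1))
    (fun j i => match j with
      | none => hatP (f (Sum.inl ⟨0, by omega⟩)) i.1 * hatP (f (Sum.inl ⟨1, by omega⟩)) i.2 +
          hatP (f (Sum.inl ⟨1, by omega⟩)) i.1 * hatP (f (Sum.inl ⟨0, by omega⟩)) i.2
      | some j => hatP (f j) i.1 * hatP (f j) i.2)
    (fun x => Function.extend f (role hd) 0 x.1 x.2) ?_
    (fun j => match j with
      | none => c0
      | some j => c j) ?_
  · exact ⟨funext fun j => congrFun key (some j), congrFun key none⟩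
  · intro c hc
    simp only [Prod.forall, Fintype.sum_option, map_add, map_mul, aeval_hatP,
      hf.extend_apply] at hc
    simp only [Fintype.sum_sum_type, Finset.univ_unique, Finset.sum_singleton] at hc
    have e1 := hc (Fin.succ ⟨0, by omega⟩) (Fin.succ ⟨1, by omega⟩)
    have e2 := hc (Fin.succ ⟨0, by omega⟩) (Fin.succ ⟨2, by omega⟩)
    have e3 := hc (Fin.succ ⟨0, by omega⟩) (Fin.succ ⟨3, by omega⟩)
    have e4 := hc (Fin.succ ⟨1, by omega⟩) (Fin.succ ⟨2, by omega⟩)
    have e5 := hc (Fin.succ ⟨1, by omega⟩) (Fin.succ ⟨3, by omega⟩)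
    simp only [hat_succ, role, Fin.sum_univ_four] at e1 e2 e3 e4 e5
    simp only [Pi.single_apply, Fin.ext_iff] at e1 e2 e3 e4 e5
    have z : ∀ (i j : ℕ) (_ : i ≠ j) (F : Fin d → ℝ),
        ∑ x : Fin d, (if i = (x : ℕ) then (if j = (x : ℕ) then F x else 0) else 0) = 0 := by
      intro i j hij F
      refine Finset.sum_eq_zero fun x _ => ?_
      split_ifs with h1 h2
      · exact absurd (h1.trans h2.symm) hij
      · rfl
      · rfl
    simp [Fin.ext_iff] at e1 e2 e3 e4 e5
    rw [z 1 0 (by norm_num), z 1 0 (by norm_num)] at e1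
    rw [z 2 0 (by norm_num), z 2 0 (by norm_num)] at e2
    rw [z 3 0 (by norm_num), z 3 0 (by norm_num)] at e3
    rw [z 2 1 (by norm_num), z 2 1 (by norm_num)] at e4
    rw [z 3 1 (by norm_num), z 3 1 (by norm_num)] at e5
    simp only [add_zero, zero_add] at e1 e2 e3 e4 e5
    have hr : ∀ r : Fin 4, c (some (Sum.inr (Sum.inr (Sum.inr r)))) = 0 := by
      intro r
      fin_cases r
      · exact e2
      · exact e3
      · exact e4
      · exact e5
    simp only [e1, hr, zero_mul, zero_add, Finset.sum_const_zero, add_zero] at hc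
    have ht : ∀ t : Fin d, c (some (Sum.inl t)) = 0 ∧ c (some (Sum.inr (Sum.inl t))) = 0 := by
      intro t
      have g1 := hc t.succ t.succ
      have g2 := hc t.succ 0
      simp [role, Pi.single_apply] at g1 g2
      constructor <;> linarith
    have h0 := hc 0 0
    simp only [(ht _).1, (ht _).2, Finset.sum_const_zero, zero_mul, zero_add, hat_zero,
      mul_one] at h0
    funext j
    rcases j with _ | (t | t | u | r)
    · exact e1
    · exact (ht t).1
    · exact (ht t).2
    · exact h0
    · exact hr r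
  · rintro ⟨i, k⟩
    simp only [Fintype.sum_option, map_add, map_mul, aeval_hatP]
    have := hc i k
    rw [add_comm]
    exact this

end Pool.Agent.Q131.RM
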