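import Pool.Agent.Q131.RM.Gen

/-!
# Existence of generic points
-/

set_option autoImplicit false

open Finset

namespace Pool.Agent.Q131.RM

theorem exists_gen (V : Type) [Fintype V] (d : ℕ) :
    ∃ p : V → Fin d → ℝ, AlgebraicIndependent ℚ (fun c : V × Fin d => p c.1 c.2) := by
  obtain ⟨ι, x, hx⟩ := exists_isTranscendenceBasis' ℚ ℝ
  have hne : Nonempty ι := by
    by_contra h
    rw [not_nonempty_iff] at h
    have h1 : Algebra.IsAlgebraic ℚ ℝ := hx.isEmpty_iff_isAlgebraic.1 h
    have h2 := Algebra.IsAlgebraic.cardinalMk_le_max ℚ ℝ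
    rw [Cardinal.mk_real] at h2
    have h5 : Cardinal.continuum ≤ Cardinal.aleph0 := by simpa using h2
    exact absurd h5 (not_le.2 Cardinal.aleph0_lt_continuum)
  have hinf : Infinite ι := by
    by_contra h
    rw [not_infinite_iff_finite] at h
    have h2 := hx.lift_cardinalMk_eq_max_lift
    have h3 : Cardinal.mk ι < Cardinal.aleph0 := Cardinal.lt_aleph0_of_finite ι
    simp only [Cardinal.lift_id, Cardinal.mk_real] at h2
    have h4 : (Cardinal.mk ℚ ⊔ Cardinal.mk ι ⊔ Cardinal.aleph0) ≤ Cardinal.aleph0 := by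
      simp [h3.le]
    have h5 : Cardinal.continuum ≤ Cardinal.aleph0 := by
      first
        | exact h2.le.trans h4
        | exact (le_of_eq (by simpa using h2)).trans h4
    exact absurd h5 (not_le.2 Cardinal.aleph0_lt_continuum)
  have : Nonempty (V × Fin d ↪ ι) := by
    exact ⟨(Function.Embedding.nonempty_of_card_le
      (by simp : Fintype.card (V × Fin d) ≤ Fintype.card (Fin (Fintype.card (V × Fin d))))).some.trans
        ((Fin.valEmbedding).trans (Infinite.natEmbedding ι))⟩
  obtain ⟨e⟩ := this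
  exact ⟨fun v i => x (e (v, i)), hx.1.comp e e.injective⟩

end Pool.Agent.Q131.RM
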