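import Pool.Agent.Q131.RM.Gen

/-!
# Complete bipartite graphs at generic points
-/

set_option autoImplicit false
set_option linter.unusedSectionVars false

open Finset Module

namespace Pool.Agent.Q131.RM

variable {V : Type} [Fintype V] [DecidableEq V] {d : ℕ}

/-- `d + 1` generic points, any index type. -/
theorem indep_of_card {p : V → Fin d → ℝ} (hp : Gen p) {S : Type} [Fintype S]
    (hS : Fintype.card S = d + 1) (g : S → V) (hg : Function.Injective g) (c : S → ℝ)
    (hc : ∀ i, ∑ s, c s * hat (p (g s)) i = 0) : ∀ s, c s = 0 := by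
  classical
  let e : Fin (d + 1) ≃ S := (Fintype.equivFinOfCardEq hS).symm
  have h1 := affine_indep hp (g ∘ e) (hg.comp e.injective) (c ∘ e) (by
    intro i
    rw [← hc i]
    exact e.sum_comp (fun s => c s * hat (p (g s)) i))
  intro s
  have := congrFun h1 (e.symm s)
  simpa using this

theorem card_ne {S : Type} [Fintype S] [DecidableEq S] (s0 : S) :
    Fintype.card {s : S // s ≠ s0} = Fintype.card S - 1 := by
  rw [Fintype.card_subtype_compl]; simp

theorem sum_ne {S : Type} [Fintype S] [DecidableEq S] (s0 : S) (F : S → ℝ) (h : F s0 = 0) :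
    ∑ s : {s : S // s ≠ s0}, F s = ∑ s, F s := by
  rw [← Fintype.sum_subtype_add_sum_subtype (fun s => s ≠ s0) F]
  have : ∑ s : {s : S // ¬ s ≠ s0}, F s = 0 := by
    refine Finset.sum_eq_zero fun s _ => ?_
    have hs : s.1 = s0 := not_not.1 s.2
    rw [hs, h]
  rw [this, add_zero]

theorem zero_of_zero {p : V → Fin d → ℝ} (hp : Gen p) {S : Type} [Fintype S] [DecidableEq S]
    (hS : Fintype.card S = d + 2) (g : S → V) (hg : Function.Injective g) (c : S → ℝ)
    (hc : ∀ i, ∑ s, c s * hat (p (g s)) i = 0) (s0 : S) (h0 : c s0 = 0) : ∀ s, c s = 0 := by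
  have hcard : Fintype.card {s : S // s ≠ s0} = d + 1 := by
    rw [card_ne]; omega
  have h1 := indep_of_card hp hcard (fun s => g s.1) (fun a b hab => Subtype.ext (hg hab))
    (fun s => c s.1) (by
      intro i
      rw [← hc i]
      exact sum_ne s0 (fun s => c s * hat (p (g s)) i) (by rw [h0, zero_mul]))
  intro s
  by_cases hs : s = s0
  · rw [hs, h0]
  · exact h1 ⟨s, hs⟩

/-- The affine dependence of `d + 2` generic points. -/
theorem exists_alpha {p : V → Fin d → ℝ} (hp : Gen p) {S : Type} [Fintype S] [DecidableEq S]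
    (hS : Fintype.card S = d + 2) (g : S → V) (hg : Function.Injective g) :
    ∃ α : S → ℝ, (∀ s, α s ≠ 0) ∧ (∀ i, ∑ s, α s * hat (p (g s)) i = 0) ∧
      ∀ γ : S → ℝ, (∀ i, ∑ s, γ s * hat (p (g s)) i = 0) → ∃ t : ℝ, ∀ s, γ s = t * α s := by
  let T : (S → ℝ) →ₗ[ℝ] (Fin (d + 1) → ℝ) :=
    { toFun := fun c i => ∑ s, c s * hat (p (g s)) i
      map_add' := by
        intro c c'
        ext i
        simp [add_mul, Finset.sum_add_distrib]
      map_smul' := by
        intro t c
        ext i
        simp [mul_assoc, Finset.mul_sum] }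
  have hker : LinearMap.ker T ≠ ⊥ := by
    apply LinearMap.ker_ne_bot_of_finrank_lt
    rw [finrank_fintype_fun_eq_card, finrank_fintype_fun_eq_card, hS, Fintype.card_fin]
    omega
  obtain ⟨α, hα, hα0⟩ := Submodule.exists_mem_ne_zero_of_ne_bot hker
  rw [LinearMap.mem_ker] at hα
  have hα' : ∀ i, ∑ s, α s * hat (p (g s)) i = 0 := fun i => congrFun hα i
  have hne : ∀ s, α s ≠ 0 := by
    intro s hs
    apply hα0
    ext x
    exact zero_of_zero hp hS g hg α hα' s hs x
  refine ⟨α, hne, hα', fun γ hγ => ?_⟩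
  have hS0 : 0 < Fintype.card S := by omega
  obtain ⟨s0⟩ := Fintype.card_pos_iff.1 hS0
  refine ⟨γ s0 / α s0, fun s => ?_⟩
  have h1 := zero_of_zero hp hS g hg (fun s => γ s - γ s0 / α s0 * α s) (by
    intro i
    have : ∀ s, (γ s - γ s0 / α s0 * α s) * hat (p (g s)) i =
        γ s * hat (p (g s)) i - γ s0 / α s0 * (α s * hat (p (g s)) i) := fun s => by ring
    simp only [this, Finset.sum_sub_distrib, ← Finset.mul_sum, hγ i, hα' i]
    ring) s0 (by
      have := hne s0
      field_simp
      ring) s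
  linarith

/-- The space of affine dependences. -/
def dep (p : V → Fin d → ℝ) {S : Type} [Fintype S] (g : S → V) : Submodule ℝ (S → ℝ) where
  carrier := {c | ∀ i, ∑ s, c s * hat (p (g s)) i = 0}
  add_mem' := by
    intro a b ha hb i
    simp only [Pi.add_apply, add_mul, Finset.sum_add_distrib]
    rw [ha i, hb i, add_zero]
  zero_mem' := by
    intro i
    simp
  smul_mem' := by
    intro t c hc i
    simp only [Pi.smul_apply, smul_eq_mul, mul_assoc, ← Finset.mul_sum]
    rw [hc i, mul_zero]

theorem finrank_dep {p : V → Fin d → ℝ} (hp : Gen p) {S : Type} [Fintype S] [DecidableEq S]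
    (hS : Fintype.card S = d + 3) (g : S → V) (hg : Function.Injective g) :
    finrank ℝ (dep p g) = 2 := by
  let T : (S → ℝ) →ₗ[ℝ] (Fin (d + 1) → ℝ) :=
    { toFun := fun c i => ∑ s, c s * hat (p (g s)) i
      map_add' := by
        intro c c'
        ext i
        simp [add_mul, Finset.sum_add_distrib]
      map_smul' := by
        intro t c
        ext i
        simp [mul_assoc, Finset.mul_sum] }
  have hker : LinearMap.ker T = dep p g := by
    ext c
    rw [LinearMap.mem_ker]
    constructor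
    · intro h i; exact congrFun h i
    · intro h; ext i; exact h i
  obtain ⟨f⟩ : Nonempty (Fin (d + 1) ↪ S) :=
    Function.Embedding.nonempty_of_card_le (by rw [Fintype.card_fin]; omega)
  let Q : (Fin (d + 1) → ℝ) →ₗ[ℝ] (S → ℝ) :=
    { toFun := fun c => ∑ j, c j • (Pi.single (f j) 1 : S → ℝ)
      map_add' := by
        intro c c'
        simp [add_smul, Finset.sum_add_distrib]
      map_smul' := by
        intro t c
        simp [Finset.smul_sum, mul_smul] }
  have hTQ : ∀ c i, T (Q c) i = ∑ j, c j * hat (p (g (f j))) i := by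
    intro c i
    change ∑ s, (∑ j, c j • (Pi.single (f j) 1 : S → ℝ)) s * hat (p (g s)) i = _
    simp only [Finset.sum_apply, Pi.smul_apply, smul_eq_mul, Finset.sum_mul]
    rw [Finset.sum_comm]
    refine Finset.sum_congr rfl fun j _ => ?_
    rw [Finset.sum_eq_single (f j)]
    · simp
    · intro s _ hs
      simp [Pi.single_eq_of_ne hs]
    · intro h; exact absurd (Finset.mem_univ _) h
  have hinj : Function.Injective (T ∘ₗ Q) := by
    rw [← LinearMap.ker_eq_bot, LinearMap.ker_eq_bot']
    intro c hc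
    apply affine_indep hp (fun j => g (f j)) (hg.comp f.injective) c
    intro i
    rw [← hTQ]
    exact congrFun hc i
  have hsurj : Function.Surjective (T ∘ₗ Q) := (LinearMap.injective_iff_surjective).1 hinj
  have hT : Function.Surjective T := by
    intro y
    obtain ⟨c, hc⟩ := hsurj y
    exact ⟨Q c, hc⟩
  have h1 := LinearMap.finrank_range_add_finrank_ker T
  rw [LinearMap.range_eq_top.2 hT, finrank_top, finrank_fintype_fun_eq_card,
    finrank_fintype_fun_eq_card, hS, Fintype.card_fin, hker] at h1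
  omega

/-- A dependence of `d + 3` generic points which vanishes exactly at `s0`. -/
theorem exists_beta {p : V → Fin d → ℝ} (hp : Gen p) {S : Type} [Fintype S] [DecidableEq S]
    (hS : Fintype.card S = d + 3) (g : S → V) (hg : Function.Injective g) (s0 : S) :
    ∃ β ∈ dep p g, β s0 = 0 ∧ ∀ s, s ≠ s0 → β s ≠ 0 := by
  have hcard : Fintype.card {s : S // s ≠ s0} = d + 2 := by
    rw [card_ne]; omega
  obtain ⟨α, h1, h2, -⟩ := exists_alpha hp hcard (fun s => g s.1)
    (fun a b hab => Subtype.ext (hg hab))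
  let β0 : S → ℝ := fun s => if h : s ≠ s0 then α ⟨s, h⟩ else 0
  have hpos : ∀ (s : S) (h : s ≠ s0), β0 s = α ⟨s, h⟩ := fun s h => dif_pos h
  have hz : β0 s0 = 0 := dif_neg (fun h => h rfl)
  refine ⟨β0, ?_, hz, ?_⟩
  · intro i
    rw [← h2 i, ← sum_ne s0 (fun s => β0 s * hat (p (g s)) i) (by simp only [hz, zero_mul])]
    refine Finset.sum_congr rfl fun s _ => ?_
    simp only [hpos s.1 s.2]
  · intro s hs
    rw [hpos s hs]
    exact h1 _

/-- Homogeneous coordinates of vectors. -/
def hat0 (x : Fin d → ℝ) : Fin (d + 1) → ℝ := Fin.cons 0 x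

@[simp] theorem hat0_zero (x : Fin d → ℝ) : hat0 x 0 = 0 := rfl
@[simp] theorem hat0_succ (x : Fin d → ℝ) (i : Fin d) : hat0 x i.succ = x i := rfl

section bip

variable {p : V → Fin d → ℝ} {A B : Type} [Fintype A] [Fintype B] [DecidableEq A] [DecidableEq B]
  {a : A → V} {b : B → V}

theorem key_A {ω : A → B → ℝ} {F : A → Fin d → ℝ}
    (hA : ∀ x i, ∑ y, ω x y * (p (a x) i - p (b y) i) = F x i) (x : A) (k : Fin (d + 1)) :
    ∑ y, ω x y * hat (p (b y)) k = (∑ y, ω x y) * hat (p (a x)) k - hat0 (F x) k := by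
  refine Fin.cases ?_ (fun i => ?_) k
  · simp
  · simp only [hat_succ, hat0_succ]
    rw [← hA x i]
    simp only [mul_sub, Finset.sum_sub_distrib, Finset.sum_mul]
    ring

theorem key_B {ω : A → B → ℝ}
    (hB : ∀ y i, ∑ x, ω x y * (p (b y) i - p (a x) i) = 0) (y : B) (k : Fin (d + 1)) :
    ∑ x, ω x y * hat (p (a x)) k = (∑ x, ω x y) * hat (p (b y)) k := by
  refine Fin.cases ?_ (fun i => ?_) k
  · simp
  · simp only [hat_succ]
    have := hB y i
    simp only [mul_sub, Finset.sum_sub_distrib, ← Finset.sum_mul] at this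
    linarith

theorem key_identity {ω : A → B → ℝ} {F : A → Fin d → ℝ}
    (hA : ∀ x i, ∑ y, ω x y * (p (a x) i - p (b y) i) = F x i)
    (hB : ∀ y i, ∑ x, ω x y * (p (b y) i - p (a x) i) = 0) (i k : Fin (d + 1)) :
    ∑ x, (∑ y, ω x y) * (hat (p (a x)) i * hat (p (a x)) k) -
      ∑ y, (∑ x, ω x y) * (hat (p (b y)) i * hat (p (b y)) k) =
      ∑ x, hat (p (a x)) i * hat0 (F x) k := by
  have h1 : ∑ x, hat (p (a x)) i * ∑ y, ω x y * hat (p (b y)) k =
      ∑ y, hat (p (b y)) k * ∑ x, ω x y * hat (p (a x)) i := by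
    simp only [Finset.mul_sum]
    rw [Finset.sum_comm]
    refine Finset.sum_congr rfl fun y _ => Finset.sum_congr rfl fun x _ => ?_
    ring
  simp only [key_A hA, key_B hB, mul_sub, Finset.sum_sub_distrib] at h1
  have e1 : ∑ x, hat (p (a x)) i * ((∑ y, ω x y) * hat (p (a x)) k) =
      ∑ x, (∑ y, ω x y) * (hat (p (a x)) i * hat (p (a x)) k) :=
    Finset.sum_congr rfl fun x _ => by ring
  have e2 : ∑ y, hat (p (b y)) k * ((∑ x, ω x y) * hat (p (b y)) i) =
      ∑ y, (∑ x, ω x y) * (hat (p (b y)) i * hat (p (b y)) k) :=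
    Finset.sum_congr rfl fun x _ => by ring
  rw [e1, e2] at h1
  linarith

/-- An enumeration with two prescribed values. -/
theorem exists_enum {S T : Type} [Fintype S] [Fintype T] [DecidableEq S] [DecidableEq T]
    (h : Fintype.card S = Fintype.card T) {s0 s1 : S} {t0 t1 : T} (hs : s0 ≠ s1) (ht : t0 ≠ t1) :
    ∃ e : S ≃ T, e s0 = t0 ∧ e s1 = t1 := by
  let e := Fintype.equivOfCardEq h
  let e1 := e.trans (Equiv.swap (e s0) t0)
  have h0 : e1 s0 = t0 := by simp [e1]
  have h1 : e1 s1 ≠ t0 := by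
    rw [← h0]
    exact fun h' => hs (e1.injective h'.symm)
  refine ⟨e1.trans (Equiv.swap (e1 s1) t1), ?_, ?_⟩
  · rw [Equiv.trans_apply, h0]
    exact Equiv.swap_apply_of_ne_of_ne (Ne.symm h1) ht
  · simp

/-- The squares of the points of both sides and one product are independent. -/
theorem quad_AB (hp : Gen p) (hd : 4 ≤ d) (hcard : Fintype.card A + Fintype.card B = 2 * d + 5)
    (ha : Function.Injective a) (hb : Function.Injective b) (hab : ∀ x y, a x ≠ b y)
    {x0 x1 : A} (hx : x0 ≠ x1) (r : A → ℝ) (s : B → ℝ) (c0 : ℝ)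
    (h : ∀ i k : Fin (d + 1), ∑ x, r x * (hat (p (a x)) i * hat (p (a x)) k) +
      ∑ y, s y * (hat (p (b y)) i * hat (p (b y)) k) +
      c0 * (hat (p (a x0)) i * hat (p (a x1)) k + hat (p (a x1)) i * hat (p (a x0)) k) = 0) :
    (∀ x, r x = 0) ∧ (∀ y, s y = 0) ∧ c0 = 0 := by
  have hc : Fintype.card (QI d) = Fintype.card (A ⊕ B) := by
    simp only [Fintype.card_sum, Fintype.card_fin, Fintype.card_unit]
    omega
  obtain ⟨e, he0, he1⟩ := exists_enum hc
    (s0 := (Sum.inl ⟨0, by omega⟩ : QI d)) (s1 := (Sum.inl ⟨1, by omega⟩ : QI d))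
    (t0 := (Sum.inl x0 : A ⊕ B)) (t1 := Sum.inl x1) (by simp) (by simpa using hx)
  have hinj : Function.Injective (Sum.elim a b) := by
    rintro (x | x) (y | y) hxy
    · exact congrArg _ (ha hxy)
    · exact absurd hxy (hab _ _)
    · exact absurd hxy.symm (hab _ _)
    · exact congrArg _ (hb hxy)
  have h1 := quadric_indep hp hd (Sum.elim a b ∘ e) (hinj.comp e.injective)
    (Sum.elim r s ∘ e) c0 (by
      intro i k
      have h2 := e.sum_comp (fun z => Sum.elim r s z * (hat (p (Sum.elim a b z)) i *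
        hat (p (Sum.elim a b z)) k))
      simp only [Function.comp_apply]
      rw [h2, Fintype.sum_sum_type, he0, he1]
      simp only [Sum.elim_inl, Sum.elim_inr]
      exact h i k)
  refine ⟨fun x => ?_, fun y => ?_, h1.2⟩
  · have := congrFun h1.1 (e.symm (Sum.inl x))
    simpa using this
  · have := congrFun h1.1 (e.symm (Sum.inr y))
    simpa using this

/-- Stresses of complete bipartite graphs. -/
theorem stress_sums (hp : Gen p) (hd : 4 ≤ d)
    (hcard : Fintype.card A + Fintype.card B = 2 * d + 5)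
    (ha : Function.Injective a) (hb : Function.Injective b) (hab : ∀ x y, a x ≠ b y)
    (hA2 : 1 < Fintype.card A) {ω : A → B → ℝ}
    (hA : ∀ x i, ∑ y, ω x y * (p (a x) i - p (b y) i) = 0)
    (hB : ∀ y i, ∑ x, ω x y * (p (b y) i - p (a x) i) = 0) :
    (∀ x k, ∑ y, ω x y * hat (p (b y)) k = 0) ∧ (∀ y k, ∑ x, ω x y * hat (p (a x)) k = 0) := by
  obtain ⟨x0, x1, hx⟩ := Fintype.one_lt_card_iff.1 hA2
  have hA' : ∀ x i, ∑ y, ω x y * (p (a x) i - p (b y) i) = (fun _ : A => (0 : Fin d → ℝ)) x i :=
    hA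
  have h0 : ∀ k : Fin (d + 1), hat0 (0 : Fin d → ℝ) k = 0 := by
    intro k
    refine Fin.cases rfl (fun i => rfl) k
  have h := quad_AB hp hd hcard ha hb hab hx (fun x => ∑ y, ω x y) (fun y => -∑ x, ω x y) 0 (by
    intro i k
    have := key_identity hA' hB i k
    simp only [h0, mul_zero, Finset.sum_const_zero] at this
    simp only [neg_mul, Finset.sum_neg_distrib, zero_mul, add_zero]
    linarith)
  constructor
  · intro x k
    rw [key_A hA' x k, h.1 x, zero_mul, zero_sub, h0, neg_zero]
  · intro y k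
    have := h.2.1 y
    rw [key_B hB y k, neg_eq_zero.1 this, zero_mul]

/-- No pair of vertices of one side is in the span of a complete bipartite graph. -/
theorem not_load (hp : Gen p) (hd : 4 ≤ d)
    (hcard : Fintype.card A + Fintype.card B = 2 * d + 5)
    (ha : Function.Injective a) (hb : Function.Injective b) (hab : ∀ x y, a x ≠ b y)
    {x0 x1 : A} (hx : x0 ≠ x1) {ω : A → B → ℝ}
    (hA : ∀ x i, ∑ y, ω x y * (p (a x) i - p (b y) i) =
      (if x = x0 then p (a x0) i - p (a x1) i else 0) +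
      (if x = x1 then p (a x1) i - p (a x0) i else 0))
    (hB : ∀ y i, ∑ x, ω x y * (p (b y) i - p (a x) i) = 0) : False := by
  have hA' : ∀ x i, ∑ y, ω x y * (p (a x) i - p (b y) i) =
      (fun x : A => (fun i => (if x = x0 then p (a x0) i - p (a x1) i else 0) +
      (if x = x1 then p (a x1) i - p (a x0) i else 0) : Fin d → ℝ)) x i := hA
  have h0 : ∀ (x : A) (k : Fin (d + 1)), hat0 ((fun x : A => (fun i =>
      (if x = x0 then p (a x0) i - p (a x1) i else 0) +
      (if x = x1 then p (a x1) i - p (a x0) i else 0) : Fin d → ℝ)) x) k =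
      (if x = x0 then hat (p (a x0)) k - hat (p (a x1)) k else 0) +
      (if x = x1 then hat (p (a x1)) k - hat (p (a x0)) k else 0) := by
    intro x k
    refine Fin.cases ?_ (fun i => ?_) k
    · simp
    · simp
  have h := quad_AB hp hd hcard ha hb hab hx
    (fun x => (∑ y, ω x y) - (if x = x0 then 1 else 0) - (if x = x1 then 1 else 0))
    (fun y => -∑ x, ω x y) 1 (by
    intro i k
    have h1 := key_identity hA' hB i k
    simp only [h0, mul_add, Finset.sum_add_distrib, mul_ite, mul_zero, Finset.sum_ite_eq',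
      Finset.mem_univ, if_true] at h1
    simp only [sub_mul, Finset.sum_sub_distrib, ite_mul, one_mul, zero_mul, Finset.sum_ite_eq',
      Finset.mem_univ, if_true, neg_mul, Finset.sum_neg_distrib]
    linarith)
  exact one_ne_zero h.2.2

end bip

end Pool.Agent.Q131.RM
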