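import Pool.Agent.Q131.RM.Geo
import Pool.Agent.Q131.RM.Core3

/-!
# Rows of the rigidity matrix and the example
-/

set_option autoImplicit false
set_option linter.unusedSectionVars false

open Finset Module

namespace Pool.Agent.Q131.RM

/-- The edges of the complete graph. -/
abbrev Edge (V : Type) : Type := {e : Sym2 V // ¬ e.IsDiag}

section

variable {V : Type} [Fintype V] [DecidableEq V] {d : ℕ}

/-- The row of an edge in the rigidity matrix. -/
def row (p : V → Fin d → ℝ) (e : Edge V) : V → Fin d → ℝ :=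
  Sym2.lift ⟨fun u v => (Pi.single u (p u - p v) + Pi.single v (p v - p u) : V → Fin d → ℝ),
    fun _ _ => add_comm _ _⟩ e.1

/-- The edge `uv`. -/
def mk (u v : V) (h : u ≠ v) : Edge V := ⟨s(u, v), by simpa using h⟩

theorem row_mk (p : V → Fin d → ℝ) (u v : V) (h : u ≠ v) (z : V) (i : Fin d) :
    row p (mk u v h) z i = (if z = u then p u i - p v i else 0) +
      (if z = v then p v i - p u i else 0) := by
  change (Pi.single u (p u - p v) + Pi.single v (p v - p u) : V → Fin d → ℝ) z i = _
  simp only [Pi.add_apply, Pi.single_apply]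
  split_ifs <;> simp

theorem pts_ne {p : V → Fin d → ℝ} (hp : Gen p) (hd : 0 < d) {u v : V} (h : u ≠ v) :
    ∃ i, p u i ≠ p v i := by
  refine ⟨⟨0, hd⟩, fun he => ?_⟩
  have := (hp.injective : Function.Injective (fun c : V × Fin d => p c.1 c.2))
    (a₁ := (u, ⟨0, hd⟩)) (a₂ := (v, ⟨0, hd⟩)) he
  exact h (congrArg Prod.fst this)

section bip

variable {A B : Type} [Fintype A] [Fintype B] [DecidableEq A] [DecidableEq B]
  {a : A → V} {b : B → V}

theorem row_sum (p : V → Fin d → ℝ) (hab : ∀ x y, a x ≠ b y) (ω : A → B → ℝ) (z : V)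
    (i : Fin d) :
    ∑ x, ∑ y, ω x y * row p (mk (a x) (b y) (hab x y)) z i =
      ∑ x, (if z = a x then ∑ y, ω x y * (p (a x) i - p (b y) i) else 0) +
      ∑ y, (if z = b y then ∑ x, ω x y * (p (b y) i - p (a x) i) else 0) := by
  simp only [row_mk, mul_add, Finset.sum_add_distrib]
  congr 1
  · refine Finset.sum_congr rfl fun x _ => ?_
    split_ifs with h
    · rfl
    · simp
  · rw [Finset.sum_comm]
    refine Finset.sum_congr rfl fun y _ => ?_
    split_ifs with h
    · rfl
    · simp

theorem row_sum_a (p : V → Fin d → ℝ) (ha : Function.Injective a) (hab : ∀ x y, a x ≠ b y)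
    (ω : A → B → ℝ) (x : A) (i : Fin d) :
    ∑ x', ∑ y, ω x' y * row p (mk (a x') (b y) (hab x' y)) (a x) i =
      ∑ y, ω x y * (p (a x) i - p (b y) i) := by
  rw [row_sum p hab]
  simp [ha.eq_iff, hab]

theorem row_sum_b (p : V → Fin d → ℝ) (hb : Function.Injective b) (hab : ∀ x y, a x ≠ b y)
    (ω : A → B → ℝ) (y : B) (i : Fin d) :
    ∑ x, ∑ y', ω x y' * row p (mk (a x) (b y') (hab x y')) (b y) i =
      ∑ x, ω x y * (p (b y) i - p (a x) i) := by
  rw [row_sum p hab]
  simp [hb.eq_iff, (hab _ _).symm]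

theorem row_sum_o (p : V → Fin d → ℝ) (hab : ∀ x y, a x ≠ b y)
    (ω : A → B → ℝ) (z : V) (hza : ∀ x, z ≠ a x) (hzb : ∀ y, z ≠ b y) (i : Fin d) :
    ∑ x, ∑ y, ω x y * row p (mk (a x) (b y) (hab x y)) z i = 0 := by
  rw [row_sum p hab]
  simp [hza, hzb]

/-- The closure of a complete bipartite graph. -/
theorem closure_bip {p : V → Fin d → ℝ} (hp : Gen p) (hd : 4 ≤ d)
    (hcard : Fintype.card A + Fintype.card B = 2 * d + 5)
    (ha : Function.Injective a) (hb : Function.Injective b) (hab : ∀ x y, a x ≠ b y)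
    (ω : A → B → ℝ) (g : Edge V)
    (hg : ∀ z i, row p g z i = ∑ x, ∑ y, ω x y * row p (mk (a x) (b y) (hab x y)) z i) :
    ∃ x y, g = mk (a x) (b y) (hab x y) := by
  obtain ⟨e, he⟩ := g
  induction e using Sym2.ind with
  | _ u v =>
    have huv : u ≠ v := by simpa using he
    have hg' : ∀ z i, (if z = u then p u i - p v i else 0) +
      (if z = v then p v i - p u i else 0) =
        ∑ x, ∑ y, ω x y * row p (mk (a x) (b y) (hab x y)) z i := by
      intro z i
      rw [← hg z i, ← row_mk p u v huv]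
      rfl
    obtain ⟨i0, hi0⟩ := pts_ne hp (by omega) huv
    have hu : (∃ x, u = a x) ∨ (∃ y, u = b y) := by
      by_contra hcon
      push Not at hcon
      have := hg' u i0
      rw [row_sum_o p hab ω u hcon.1 hcon.2] at this
      simp only [if_true, if_neg huv, add_zero] at this
      exact hi0 (sub_eq_zero.1 this)
    have hv : (∃ x, v = a x) ∨ (∃ y, v = b y) := by
      by_contra hcon
      push Not at hcon
      have := hg' v i0
      rw [row_sum_o p hab ω v hcon.1 hcon.2] at this
      simp only [if_true, if_neg huv.symm, zero_add] at this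
      exact hi0 (sub_eq_zero.1 this).symm
    rcases hu with ⟨x, rfl⟩ | ⟨y, rfl⟩
    · rcases hv with ⟨x', rfl⟩ | ⟨y', rfl⟩
      · exfalso
        have hxx : x ≠ x' := fun h => huv (by rw [h])
        refine not_load hp hd hcard ha hb hab hxx (ω := ω) ?_ ?_
        · intro x2 i
          rw [← row_sum_a p ha hab ω x2 i, ← hg']
          simp only [ha.eq_iff]
        · intro y i
          rw [← row_sum_b p hb hab ω y i, ← hg']
          simp [(hab _ _).symm]
      · exact ⟨x, y', rfl⟩
    · rcases hv with ⟨x', rfl⟩ | ⟨y', rfl⟩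
      · exact ⟨x', y, Subtype.ext Sym2.eq_swap⟩
      · exfalso
        have hxx : y ≠ y' := fun h => huv (by rw [h])
        refine not_load (a := b) (b := a) hp hd (by omega) hb ha (fun x y => (hab y x).symm) hxx
          (ω := fun y x => ω x y) ?_ ?_
        · intro y2 i
          rw [← row_sum_b p hb hab ω y2 i, ← hg']
          simp only [hb.eq_iff]
        · intro x i
          rw [← row_sum_a p ha hab ω x i, ← hg']
          simp [hab]

/-- Products of dependences are stresses. -/
theorem prod_stress {p : V → Fin d → ℝ} (hab : ∀ x y, a x ≠ b y) {α : A → ℝ} {β : B → ℝ}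
    (hα : ∀ i, ∑ x, α x * hat (p (a x)) i = 0) (hβ : ∀ i, ∑ y, β y * hat (p (b y)) i = 0)
    (z : V) (i : Fin d) :
    ∑ x, ∑ y, (α x * β y) * row p (mk (a x) (b y) (hab x y)) z i = 0 := by
  have a0 := hα 0
  have ai := hα i.succ
  have b0 := hβ 0
  have bi := hβ i.succ
  simp only [hat_zero, mul_one, hat_succ] at a0 ai b0 bi
  rw [row_sum p hab]
  have e1 : ∀ x, ∑ y, α x * β y * (p (a x) i - p (b y) i) = 0 := by
    intro x
    have : ∀ y, α x * β y * (p (a x) i - p (b y) i) =
        (α x * p (a x) i) * β y - α x * (β y * p (b y) i) := fun y => by ring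
    simp only [this, Finset.sum_sub_distrib, ← Finset.mul_sum, b0, bi]
    ring
  have e2 : ∀ y, ∑ x, α x * β y * (p (b y) i - p (a x) i) = 0 := by
    intro y
    have : ∀ x, α x * β y * (p (b y) i - p (a x) i) =
        (β y * p (b y) i) * α x - β y * (α x * p (a x) i) := fun x => by ring
    simp only [this, Finset.sum_sub_distrib, ← Finset.mul_sum, a0, ai]
    ring
  simp [e1, e2]

end bip

end

end Pool.Agent.Q131.RM
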